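import Pool.Agent.Y462.PA.Ctx
import Pool.Agent.Y462.SS.St

/-!
# Polynomial activity: statements of the jobs

Owner helper462.
-/

set_option autoImplicit false

open Classical

namespace Pool.Agent.Y462.PA

open Pool.Agent.Y462.SS
open Pool.Agent.Y110.FJ (ClosedE S_EXT S_PERM S_AM Amg)

/-! ## amalgamated products -/

/-- the embedding in the proof of `S_AM` -/
def S_EMB : Prop := ∀ C : ∀ (G : Type) [Group G], Prop, ClosedE C →
  ∀ (G P : Type) [Group G] [Group P] (A B K : Subgroup G), Amg A B K → ∀ f : G →* P,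
    (∀ a ∈ A, f a = 1 → a = 1) → (∀ b ∈ B, f b = 1 → b = 1) → C P →
    ∃ (Q : Type) (_ : Group Q) (ι : P →* Q) (z : Q) (Θ : G →* Q), C Q ∧ Function.Injective ι ∧
      Function.Injective Θ ∧ (∀ a ∈ A, Θ a = ι (f a)) ∧ ∀ b ∈ B, Θ b = z * ι (f b) * z⁻¹

/-- the factors of an amalgamated product embed -/
def S_AMINJ : Prop := ∀ (K A B : Type) [Group K] [Group A] [Group B] (α : K →* A) (β : K →* B),
  Function.Injective α → Function.Injective β →
    Function.Injective (Am.inl α β) ∧ Function.Injective (Am.inr α β)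

/-- vertex families of amalgamated products (from `S_EMB`) -/
def S_TLA : Prop := ∀ C : ∀ (G : Type) [Group G], Prop, ClosedE C →
  ∀ (K A B : Type) [Group K] [Group A] [Group B] (α : K →* A) (β : K →* B),
    Function.Injective α → Function.Injective β →
    ∀ (FA : Set (Subgroup A)) (FB : Set (Subgroup B)), TL C A FA → TL C B FB →
      (∃ A' ∈ FA, α.range ≤ A') → (∃ B' ∈ FB, β.range ≤ B') →
      TL C (Am α β) (Subgroup.map (Am.inl α β) '' FA ∪ Subgroup.map (Am.inr α β) '' FB)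

/-- amalgamated products over a finite group with a homomorphism to a finite group which is
injective on the finite group -/
def S_FIN : Prop := ∀ (C : ∀ (G : Type) [Group G], Prop), Closed C →
  ∀ (K A B : Type) [Group K] [Group A] [Group B] (α : K →* A) (β : K →* B),
    Finite K → C A → C B →
    (∃ (Q : Type) (_ : Group Q) (f : Am α β →* Q), Finite Q ∧
      Function.Injective fun c => f (Am.inl α β (α c))) → C (Am α β)

/-! ## the groups of automorphisms -/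

/-- embedding of `Bd` -/
def S_BD : Prop := ∀ (X : Type) (d : X) (P : ℕ), 0 < P → ∀ H : Subgroup (T X),
  ∃ f : Bd d P H →* (Fin P → Wr X H), Function.Injective f

/-- properties of the chain of groups -/
def S_MX : Prop := ∀ (X : Type) (d : X) (P : ℕ), 0 < P → ∀ s : ℕ,
  SelfSim (Mx d P s) ∧ SelfSim (Mx d P s ⊔ Bd d P (Mx d P s)) ∧
  Mx d P s ≤ Mx d P (s + 1) ∧ Bd d P (Mx d P s) ≤ Mx d P (s + 1) ∧
  (∀ h ∈ Mx d P (s + 1), Fx d h → ∃ m, al (dray d) h m ∈ Bd d P (Mx d P s)) ∧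
  ∀ h ∈ Mx d P (s + 1), h ∈ Bd d P ⊤ → h ∈ Bd d P (Mx d P s)

/-- dependence on the period -/
def S_MXP : Prop := ∀ (X : Type) (d : X) (P P' : ℕ), 0 < P' → P ∣ P' → ∀ s : ℕ,
  Mx d P s ≤ Mx d P' s

/-- the cover is contracting, and its elements which act trivially die -/
def S_COV : Prop := ∀ (X : Type) (d : X) (P : ℕ), 0 < P → ∀ (M E : Subgroup (T X)) (h1 : E ≤ M)
  (h2 : E ≤ Bd d P M), SelfSim M → (∀ h ∈ M, h ∈ Bd d P M → h ∈ E) →
  (∀ h ∈ M, Fx d h → ∃ m, al (dray d) h m ∈ E) →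
  ∃ (ψ : Cov d P M E h1 h2 →* Wr X (Cov d P M E h1 h2)) (π : Cov d P M E h1 h2 →* T X),
    (∀ (h : M) (x : X) (hx : sec h.1 x ∈ M), (ψ (Am.inl _ _ h)).s x = Am.inl _ _ ⟨sec h.1 x, hx⟩) ∧
    (∀ h : M, (ψ (Am.inl _ _ h)).p = root h.1) ∧
    (∀ (b : Bd d P M) (hb : sec b.1 d ∈ Bd d P M),
      (ψ (Am.inr _ _ b)).s d = Am.inr _ _ ⟨sec b.1 d, hb⟩) ∧
    (∀ (b : Bd d P M) (x : X) (hx : sec b.1 x ∈ M), x ≠ d →
      (ψ (Am.inr _ _ b)).s x = Am.inl _ _ ⟨sec b.1 x, hx⟩) ∧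
    (∀ b : Bd d P M, (ψ (Am.inr _ _ b)).p = root b.1) ∧
    (∀ h : M, π (Am.inl _ _ h) = h.1) ∧ (∀ b : Bd d P M, π (Am.inr _ _ b) = b.1) ∧
    ∀ γ, π γ = 1 ↔ Dies ψ γ

/-- residual finiteness -/
def S_RES : Prop := ∀ (X : Type), Finite X → ∀ K : Subgroup (T X), Finite K →
  ∃ (Q : Type) (_ : Group Q) (f : T X →* Q), Finite Q ∧ ∀ k ∈ K, f k = 1 → k = 1

/-! ## contexts -/

/-- approximation of the vertex group `M ⊔ Bd d P M` by quotients of its cover -/
def S_APP : Prop := ∀ C : ∀ (G : Type) [Group G], Prop, ClosedE C →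
  ∀ (X : Type), Finite X → ∀ (d : X) (P : ℕ), 0 < P →
  ∀ (H M E : Subgroup (T X)) (h1 : E ≤ M) (h2 : E ≤ Bd d P M), SelfSim H → SelfSim M →
  (∀ h ∈ M, h ∈ Bd d P M → h ∈ E) → (∀ h ∈ M, Fx d h → ∃ m, al (dray d) h m ∈ E) →
  ∀ (hHM : H ≤ M) (W : Ctx C d P H),
    C (SS3 W (Cov d P M E h1 h2) ((Am.inl _ _).comp (Subgroup.inclusion hHM))
      ((Am.inr _ _).comp (Subgroup.inclusion (Bd_mono hHM)))) →
    C (SS3 W ↥(M ⊔ Bd d P M) (Subgroup.inclusion (hHM.trans le_sup_left))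
      (Subgroup.inclusion ((Bd_mono hHM).trans le_sup_right)))

/-- one level up at the centre -/
def S_LVC : Prop := ∀ C : ∀ (G : Type) [Group G], Prop, ClosedE C →
  ∀ (X : Type), Finite X → ∀ (d : X) (P : ℕ), 0 < P →
  ∀ (H N : Subgroup (T X)), SelfSim H → ∀ (h1 : H ≤ N) (h2 : Bd d P H ≤ N) (h3 : H ≤ Lv N 1)
    (h4 : Bd d P H ≤ Lv N 1) (W : Ctx C d P H),
    C (SS3 W N (Subgroup.inclusion h1) (Subgroup.inclusion h2)) →
    C (SS3 W (Lv N 1) (Subgroup.inclusion h3) (Subgroup.inclusion h4))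

/-- enlargement of a context -/
def S_ENL : Prop := ∀ C : ∀ (G : Type) [Group G], Prop, ClosedE C →
  ∀ (X : Type) (d : X) (P : ℕ), 0 < P → ∀ (H K : Subgroup (T X)), SelfSim H → SelfSim K →
  ∀ (hHK : H ≤ K) (W : Ctx C d P H), ∃ (Z : Ctx C d P K) (jV : W.V →* Z.V) (jU : W.U →* Z.U),
    (∀ c : H, Z.iV (Subgroup.inclusion hHK c) = jV (W.iV c)) ∧
    (∀ c : Bd d P H, Z.iU (Subgroup.inclusion (Bd_mono hHK) c) = jU (W.iU c)) ∧
    (∀ (L : Type) [Group L] (f : K →* L) (g : W.V →* L),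
      (∀ c : H, f (Subgroup.inclusion hHK c) = g (W.iV c)) →
      ∃ h : Z.V →* L, (∀ k, h (Z.iV k) = f k) ∧ ∀ v, h (jV v) = g v) ∧
    (∀ (L : Type) [Group L] (f : Bd d P K →* L) (g : W.U →* L),
      (∀ c : Bd d P H, f (Subgroup.inclusion (Bd_mono hHK) c) = g (W.iU c)) →
      ∃ h : Z.U →* L, (∀ k, h (Z.iU k) = f k) ∧ ∀ v, h (jU v) = g v) ∧
    (∀ A ∈ Z.FV, A ≤ Z.iV.range ∨ ∃ A' ∈ W.FV, A ≤ A'.map jV) ∧
    (∀ A ∈ Z.FU, A ≤ Z.iU.range ∨ ∃ A' ∈ W.FU, A ≤ A'.map jU)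

/-! ## automata -/

/-- iterated sections -/
def secw {X : Type} : T X → List X → T X
  | g, [] => g
  | g, x :: v => secw (sec g x) v

/-- two different ways back give exponential activity -/
def S_AU1 : Prop := ∀ (X : Type), Finite X → ∀ g : T X, PolyActivity g.1 →
  ∀ (u : List X) (x y : X) (v w : List X), secw g u ≠ 1 → x ≠ y →
    secw (secw g u) (x :: v) = secw g u → secw (secw g u) (y :: w) = secw g u → False

/-- automata with at most one way back from every nontrivial state -/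
def S_AU2 : Prop := S_MX → S_MXP → ∀ (X : Type), Finite X → ∀ (d : X) (g : T X),
  {h : T X | ∃ v, h = secw g v}.Finite →
  (∀ (u : List X) (x y : X) (v w : List X), secw g u ≠ 1 → x ≠ y →
    secw (secw g u) (x :: v) = secw g u → secw (secw g u) (y :: w) = secw g u → False) →
  ∃ P s : ℕ, 0 < P ∧ g ∈ Mx d P s

/-- the states of a finite-state automorphism -/
def S_AU3 : Prop := ∀ (X : Type) (g : T X), (Sections g.1).Finite →
  {h : T X | ∃ v, h = secw g v}.Finite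

end Pool.Agent.Y462.PA
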