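import Pool.Agent.Y462.PA.Stm

/-!
# Polynomial activity: tools for the assembly

Owner helper462.
-/

set_option autoImplicit false

open Classical

namespace Pool.Agent.Y462.PA

open Pool.Agent.Y462.SS
open Pool.Agent.Y110.FJ (ClosedE)

variable {X : Type} {C : ∀ (G : Type) [Group G], Prop}

theorem tl_top (V : Type) [Group V] : TL C V {⊤} := by
  intro P _ f hP hf
  refine ⟨P, _, f, hP, ?_, ?_⟩
  · rw [injective_iff_map_eq_one]
    intro a ha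
    exact hf ⊤ rfl a trivial ha
  · intro A _
    exact ⟨MonoidHom.id P, fun _ _ h => h, fun a _ => rfl⟩

theorem of_TL (hC : Closed C) {V P : Type} [Group V] [Group P] {F : Set (Subgroup V)}
    (h : TL C V F) (f : V →* P) (hP : C P) (hf : ∀ A ∈ F, ∀ a ∈ A, f a = 1 → a = 1) : C V := by
  obtain ⟨Q, _, Θ, hQ, hΘ, -⟩ := h P f hP hf
  exact hC.of_injective _ _ Θ hΘ hQ

variable {d : X} {P : ℕ}

theorem range_inclusion_le {G : Type} [Group G] {H K : Subgroup G} (h : H ≤ K) :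
    (Subgroup.inclusion h).range ≤ ⊤ := le_top

/-- `TL` for `DD` -/
theorem tl_DD (hC : ClosedE C) (hTLA : S_TLA) {H : Subgroup (T X)} (W : Ctx C d P H)
    (E : Subgroup (T X)) (h1 : E ≤ H) (h2 : E ≤ Bd d P H) :
    TL C (DD W E h1 h2) (Subgroup.map (Am.inl _ _) '' W.FV ∪ Subgroup.map (Am.inr _ _) '' W.FU) := by
  have i1 : Function.Injective (W.iV.comp (Subgroup.inclusion h1)) :=
    W.iV_inj.comp (Subgroup.inclusion_injective h1)
  have i2 : Function.Injective (W.iU.comp (Subgroup.inclusion h2)) :=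
    W.iU_inj.comp (Subgroup.inclusion_injective h2)
  refine hTLA C hC E W.V W.U (W.iV.comp (Subgroup.inclusion h1))
    (W.iU.comp (Subgroup.inclusion h2)) i1 i2 W.FV W.FU W.tV W.tU ?_ ?_
  · obtain ⟨A, hA, hA'⟩ := W.iV_le
    refine ⟨A, hA, le_trans ?_ hA'⟩
    rintro _ ⟨c, rfl⟩
    exact ⟨_, rfl⟩
  · obtain ⟨A, hA, hA'⟩ := W.iU_le
    refine ⟨A, hA, le_trans ?_ hA'⟩
    rintro _ ⟨c, rfl⟩
    exact ⟨_, rfl⟩

/-- criterion for `DD` -/
theorem C_DD (hC : ClosedE C) (hTLA : S_TLA) {H : Subgroup (T X)} (W : Ctx C d P H)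
    (E : Subgroup (T X)) (h1 : E ≤ H) (h2 : E ≤ Bd d P H) {L : Type} [Group L] (hL : C L)
    (fV : W.V →* L) (fU : W.U →* L)
    (hE : ∀ e : E, fV (W.iV (Subgroup.inclusion h1 e)) = fU (W.iU (Subgroup.inclusion h2 e)))
    (hV : ∀ A ∈ W.FV, ∀ a ∈ A, fV a = 1 → a = 1) (hU : ∀ A ∈ W.FU, ∀ a ∈ A, fU a = 1 → a = 1) :
    C (DD W E h1 h2) := by
  refine of_TL hC.base (tl_DD hC hTLA W E h1 h2) (Am.lift _ _ fV fU hE) hL ?_
  rintro _ (⟨A, hA, rfl⟩ | ⟨A, hA, rfl⟩)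
  · rintro _ ⟨a, ha, rfl⟩ h
    rw [Am.lift_inl] at h
    rw [hV A hA a ha h, map_one]
  · rintro _ ⟨a, ha, rfl⟩ h
    rw [Am.lift_inr] at h
    rw [hU A hA a ha h, map_one]

/-- `TL` for `SS3` -/
theorem tl_SS3 (hC : ClosedE C) (hINJ : S_AMINJ) (hTLA : S_TLA) {H : Subgroup (T X)}
    (W : Ctx C d P H) {A : Type} [Group A] (FA : Set (Subgroup A)) (hFA : TL C A FA) (m : H →* A)
    (b : Bd d P H →* A) (hm : Function.Injective m) (hb : Function.Injective b)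
    (hm' : ∃ A' ∈ FA, m.range ≤ A') (hb' : ∃ A' ∈ FA, b.range ≤ A') :
    TL C (SS3 W A m b) (Subgroup.map (Am.inl _ _) ''
      (Subgroup.map (Am.inl _ _) '' W.FV ∪ Subgroup.map (Am.inr _ _) '' FA) ∪
      Subgroup.map (Am.inr _ _) '' W.FU) := by
  have h1 := hTLA C hC H W.V A W.iV m W.iV_inj hm W.FV FA W.tV hFA W.iV_le hm'
  have i1 : Function.Injective ((Am.inr W.iV m).comp b) :=
    (hINJ H W.V A W.iV m W.iV_inj hm).2.comp hb
  refine hTLA C hC (Bd d P H) (Am W.iV m) W.U ((Am.inr W.iV m).comp b) W.iU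
    i1 W.iU_inj _ _ h1 W.tU ?_ W.iU_le
  obtain ⟨A', hA, hA'⟩ := hb'
  refine ⟨A'.map (Am.inr W.iV m), Or.inr ⟨A', hA, rfl⟩, ?_⟩
  rintro _ ⟨c, rfl⟩
  exact ⟨b c, hA' ⟨c, rfl⟩, rfl⟩

section SS3

variable {H : Subgroup (T X)} (W : Ctx C d P H) {A : Type} [Group A] (m : H →* A)
  (b : Bd d P H →* A)

/-- `V` in `SS3` -/
noncomputable def sV : W.V →* SS3 W A m b := (Am.inl _ _).comp (Am.inl W.iV m)

/-- the centre in `SS3` -/
noncomputable def sA : A →* SS3 W A m b := (Am.inl _ _).comp (Am.inr W.iV m)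

/-- `U` in `SS3` -/
noncomputable def sU : W.U →* SS3 W A m b := Am.inr _ _

theorem s_glueV (c : H) : sV W m b (W.iV c) = sA W m b (m c) :=
  congrArg (Am.inl _ _) (Am.glue W.iV m c)

theorem s_glueU (c : Bd d P H) : sA W m b (b c) = sU W m b (W.iU c) :=
  Am.glue ((Am.inr W.iV m).comp b) W.iU c

theorem s_inj (hINJ : S_AMINJ) (hm : Function.Injective m) (hb : Function.Injective b) :
    Function.Injective (sV W m b) ∧ Function.Injective (sA W m b) ∧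
      Function.Injective (sU W m b) := by
  have h1 := hINJ H W.V A W.iV m W.iV_inj hm
  have i1 : Function.Injective ((Am.inr W.iV m).comp b) := h1.2.comp hb
  have h2 := hINJ (Bd d P H) (Am W.iV m) W.U ((Am.inr W.iV m).comp b) W.iU i1 W.iU_inj
  exact ⟨h2.1.comp h1.1, h2.1.comp h1.2, h2.2⟩

/-- homomorphisms on `SS3` -/
theorem s_lift {L : Type} [Group L] (fV : W.V →* L) (fA : A →* L) (fU : W.U →* L)
    (h1 : ∀ c : H, fV (W.iV c) = fA (m c)) (h2 : ∀ c : Bd d P H, fA (b c) = fU (W.iU c)) :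
    ∃ f : SS3 W A m b →* L, (∀ v, f (sV W m b v) = fV v) ∧ (∀ a, f (sA W m b a) = fA a) ∧
      ∀ u, f (sU W m b u) = fU u := by
  refine ⟨Am.lift _ _ (Am.lift _ _ fV fA h1) fU ?_, ?_, ?_, ?_⟩
  · intro c
    change Am.lift _ _ fV fA h1 (Am.inr W.iV m (b c)) = _
    rw [Am.lift_inr, h2]
  · intro v
    change Am.lift _ _ _ _ _ (Am.inl _ _ (Am.inl _ _ v)) = _
    rw [Am.lift_inl, Am.lift_inl]
  · intro v
    change Am.lift _ _ _ _ _ (Am.inl _ _ (Am.inr _ _ v)) = _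
    rw [Am.lift_inl, Am.lift_inr]
  · intro v
    change Am.lift _ _ _ _ _ (Am.inr _ _ v) = _
    rw [Am.lift_inr]

/-- criterion for `SS3` -/
theorem C_SS3 (hC : ClosedE C) (hINJ : S_AMINJ) (hTLA : S_TLA) (FA : Set (Subgroup A))
    (hFA : TL C A FA) (hm : Function.Injective m) (hb : Function.Injective b)
    (hm' : ∃ A' ∈ FA, m.range ≤ A') (hb' : ∃ A' ∈ FA, b.range ≤ A')
    {L : Type} [Group L] (hL : C L) (fV : W.V →* L) (fA : A →* L) (fU : W.U →* L)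
    (h1 : ∀ c : H, fV (W.iV c) = fA (m c)) (h2 : ∀ c : Bd d P H, fA (b c) = fU (W.iU c))
    (hV : ∀ A ∈ W.FV, ∀ a ∈ A, fV a = 1 → a = 1) (hA : ∀ A' ∈ FA, ∀ a ∈ A', fA a = 1 → a = 1)
    (hU : ∀ A ∈ W.FU, ∀ a ∈ A, fU a = 1 → a = 1) : C (SS3 W A m b) := by
  obtain ⟨f, hf1, hf2, hf3⟩ := s_lift W m b fV fA fU h1 h2
  refine of_TL hC.base (tl_SS3 hC hINJ hTLA W FA hFA m b hm hb hm' hb') f hL ?_
  rintro _ (⟨_, (⟨B, hB, rfl⟩ | ⟨B, hB, rfl⟩), rfl⟩ | ⟨B, hB, rfl⟩)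
  · rintro _ ⟨_, ⟨a, ha, rfl⟩, rfl⟩ h
    have h' : fV a = 1 := (hf1 a).symm.trans h
    rw [hV B hB a ha h', map_one, map_one]
  · rintro _ ⟨_, ⟨a, ha, rfl⟩, rfl⟩ h
    have h' : fA a = 1 := (hf2 a).symm.trans h
    rw [hA B hB a ha h', map_one, map_one]
  · rintro _ ⟨a, ha, rfl⟩ h
    have h' : fU a = 1 := (hf3 a).symm.trans h
    rw [hU B hB a ha h', map_one]

end SS3

end Pool.Agent.Y462.PA
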