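import Pool.Agent.Y462.PA.Tool
import Pool.Agent.Y331.SS.Lim

/-!
# Approximation of the centre by quotients of its cover

Owner helper462.
-/

set_option autoImplicit false

open Classical

namespace Pool.Agent.Y462.PA

open Pool.Agent.Y462.SS hiding Bd
open Pool.Agent.Y331.SS
open Pool.Agent.Y110.FJ (ClosedE)

variable {X : Type} {C : ∀ (G : Type) [Group G], Prop} {d : X} {P : ℕ}
variable {H : Subgroup (T X)} (W : Ctx C d P H)

section gen

variable {A : Type} [Group A] (m : H →* A) (b : Bd d P H →* A)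

/-- homomorphisms on `SS3` -/
noncomputable def sL {L : Type} [Group L] (fV : W.V →* L) (fA : A →* L) (fU : W.U →* L)
    (h1 : ∀ c : H, fV (W.iV c) = fA (m c)) (h2 : ∀ c : Bd d P H, fA (b c) = fU (W.iU c)) :
    SS3 W A m b →* L :=
  Am.lift _ _ (Am.lift _ _ fV fA h1) fU (by
    intro c
    change Am.lift _ _ fV fA h1 (Am.inr W.iV m (b c)) = _
    rw [Am.lift_inr, h2])

variable {L : Type} [Group L] (fV : W.V →* L) (fA : A →* L) (fU : W.U →* L)
    (h1 : ∀ c : H, fV (W.iV c) = fA (m c)) (h2 : ∀ c : Bd d P H, fA (b c) = fU (W.iU c))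

theorem sL_V (v : W.V) : sL W m b fV fA fU h1 h2 (sV W m b v) = fV v := by
  change Am.lift _ _ _ _ _ (Am.inl _ _ (Am.inl _ _ v)) = _
  rw [Am.lift_inl, Am.lift_inl]

theorem sL_A (v : A) : sL W m b fV fA fU h1 h2 (sA W m b v) = fA v := by
  change Am.lift _ _ _ _ _ (Am.inl _ _ (Am.inr _ _ v)) = _
  rw [Am.lift_inl, Am.lift_inr]

theorem sL_U (v : W.U) : sL W m b fV fA fU h1 h2 (sU W m b v) = fU v := by
  change Am.lift _ _ _ _ _ (Am.inr _ _ v) = _
  rw [Am.lift_inr]

theorem s_ext {f g : SS3 W A m b →* L} (e1 : ∀ v, f (sV W m b v) = g (sV W m b v))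
    (e2 : ∀ v, f (sA W m b v) = g (sA W m b v)) (e3 : ∀ v, f (sU W m b v) = g (sU W m b v)) :
    f = g := by
  refine Am.hom_ext _ _ ?_ e3
  have h : f.comp (Am.inl _ _) = g.comp (Am.inl _ _) := Am.hom_ext _ _ e1 e2
  intro a
  exact DFunLike.congr_fun h a

end gen

/-! ## the quotients -/

section quo

variable {G : Type} [Group G] (m : H →* G) (b : Bd d P H →* G)

/-- the group with the centre `G / K` -/
abbrev LK (K : Subgroup G) [K.Normal] : Type :=
  SS3 W (G ⧸ K) ((QuotientGroup.mk' K).comp m) ((QuotientGroup.mk' K).comp b)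

variable {B : Type} [Group B] (q : G →* B)

/-- the transition maps -/
noncomputable def tr (K : Subgroup G) [K.Normal] (hK : ∀ x ∈ K, q x = 1) :
    LK W m b K →* SS3 W B (q.comp m) (q.comp b) :=
  sL W _ _ (sV W (q.comp m) (q.comp b))
    ((sA W (q.comp m) (q.comp b)).comp (QuotientGroup.lift K q hK)) (sU W (q.comp m) (q.comp b))
    (fun c => s_glueV W (q.comp m) (q.comp b) c) (fun c => s_glueU W (q.comp m) (q.comp b) c)

theorem tr_V (K : Subgroup G) [K.Normal] (hK : ∀ x ∈ K, q x = 1) (v : W.V) :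
    tr W m b q K hK (sV W _ _ v) = sV W _ _ v := sL_V W _ _ _ _ _ _ _ v

theorem tr_A (K : Subgroup G) [K.Normal] (hK : ∀ x ∈ K, q x = 1) (v : G) :
    tr W m b q K hK (sA W _ _ (QuotientGroup.mk' K v)) = sA W _ _ (q v) :=
  sL_A W _ _ _ _ _ _ _ (QuotientGroup.mk' K v)

theorem tr_U (K : Subgroup G) [K.Normal] (hK : ∀ x ∈ K, q x = 1) (v : W.U) :
    tr W m b q K hK (sU W _ _ v) = sU W _ _ v := sL_U W _ _ _ _ _ _ _ v

theorem q_ext {K : Subgroup G} [K.Normal] {L : Type} [Group L] {f g : G ⧸ K →* L}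
    (h : ∀ x, f (QuotientGroup.mk' K x) = g (QuotientGroup.mk' K x)) (v : G ⧸ K) : f v = g v := by
  obtain ⟨x, rfl⟩ := QuotientGroup.mk'_surjective K v
  exact h x

theorem lk_ext {K : Subgroup G} [K.Normal] {L : Type} [Group L] {f g : LK W m b K →* L}
    (e1 : ∀ v, f (sV W _ _ v) = g (sV W _ _ v))
    (e2 : ∀ x, f (sA W _ _ (QuotientGroup.mk' K x)) = g (sA W _ _ (QuotientGroup.mk' K x)))
    (e3 : ∀ v, f (sU W _ _ v) = g (sU W _ _ v)) (x : LK W m b K) : f x = g x := by
  refine DFunLike.congr_fun (s_ext W _ _ e1 ?_ e3) x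
  exact q_ext (f := f.comp (sA W _ _)) (g := g.comp (sA W _ _)) e2

theorem mk_ker (K : Subgroup G) [K.Normal] {x : G} (h : x ∈ K) : QuotientGroup.mk' K x = 1 :=
  (QuotientGroup.eq_one_iff x).2 h

theorem tr_tr (K K' : Subgroup G) [K.Normal] [K'.Normal] (h : K ≤ K') (hK : ∀ x ∈ K, q x = 1)
    (hK' : ∀ x ∈ K', q x = 1) (x : LK W m b K) :
    tr W m b q K' hK' (tr W m b (QuotientGroup.mk' K') K (fun x hx => mk_ker K' (h hx)) x) =
      tr W m b q K hK x := by
  refine lk_ext W m b (f := (tr W m b q K' hK').comp (tr W m b (QuotientGroup.mk' K') K _)) ?_ ?_ ?_ x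
  · intro v
    rw [MonoidHom.comp_apply, tr_V, tr_V, tr_V]
  · intro v
    rw [MonoidHom.comp_apply, tr_A, tr_A, tr_A]
  · intro v
    rw [MonoidHom.comp_apply, tr_U, tr_U, tr_U]

theorem tr_self (K : Subgroup G) [K.Normal] (hK : ∀ x ∈ K, QuotientGroup.mk' K x = 1)
    (x : LK W m b K) : tr W m b (QuotientGroup.mk' K) K hK x = x := by
  refine lk_ext W m b (f := tr W m b (QuotientGroup.mk' K) K hK) (g := MonoidHom.id _) ?_ ?_ ?_ x
  · intro v
    rw [tr_V]
    rfl
  · intro v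
    rw [tr_A]
    rfl
  · intro v
    rw [tr_U]
    rfl

theorem tr_surj (K : Subgroup G) [K.Normal] (hK : ∀ x ∈ K, q x = 1)
    (hq : Function.Surjective q) : Function.Surjective (tr W m b q K hK) := by
  rw [← MonoidHom.range_eq_top]
  have h1 : (tr W m b q K hK).range.subtype.comp (MonoidHom.id _) =
      (tr W m b q K hK).range.subtype := rfl
  rw [eq_top_iff, ← Am.sup_range ((Am.inr W.iV (q.comp m)).comp (q.comp b)) W.iU, sup_le_iff]
  constructor
  · rw [MonoidHom.range_eq_map, ← Am.sup_range W.iV (q.comp m), Subgroup.map_sup, sup_le_iff]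
    constructor
    · rintro _ ⟨_, ⟨v, rfl⟩, rfl⟩
      exact ⟨_, tr_V W m b q K hK v⟩
    · rintro _ ⟨_, ⟨v, rfl⟩, rfl⟩
      obtain ⟨x, rfl⟩ := hq v
      exact ⟨_, tr_A W m b q K hK x⟩
  · rintro _ ⟨v, rfl⟩
    exact ⟨_, tr_U W m b q K hK v⟩

/-- the colimit -/
theorem C_colim (hC : Closed C) (K : ℕ → Subgroup G) (hn : ∀ n, (K n).Normal) (hK : Monotone K)
    (hq : Function.Surjective q) (hker : ∀ x, q x = 1 ↔ ∃ n, x ∈ K n)
    (h : ∀ n, C (LK W m b (K n))) : C (SS3 W B (q.comp m) (q.comp b)) := by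
  have hle : ∀ n, ∀ x ∈ K n, q x = 1 := fun n x hx => (hker x).2 ⟨n, hx⟩
  have hsurj : ∀ i j (h : i ≤ j), Function.Surjective (tr W m b (QuotientGroup.mk' (K j)) (K i)
      (fun x hx => mk_ker (K j) (hK h hx))) :=
    fun i j h => tr_surj W m b _ _ _ (QuotientGroup.mk'_surjective _)
  let N : Subgroup (LK W m b (K 0)) :=
    { carrier := {y | ∃ j, tr W m b (QuotientGroup.mk' (K j)) (K 0)
        (fun x hx => mk_ker (K j) (hK (Nat.zero_le j) hx)) y = 1}
      one_mem' := ⟨0, map_one _⟩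
      mul_mem' := by
        rintro y z ⟨i, hi⟩ ⟨j, hj⟩
        refine ⟨max i j, ?_⟩
        rw [map_mul, ← tr_tr W m b _ (K 0) (K i) (hK (Nat.zero_le i)) _
          (fun x hx => mk_ker (K (max i j)) (hK (le_max_left i j) hx)) y, hi, map_one,
          ← tr_tr W m b _ (K 0) (K j) (hK (Nat.zero_le j)) _
          (fun x hx => mk_ker (K (max i j)) (hK (le_max_right i j) hx)) z, hj, map_one, one_mul]
      inv_mem' := by
        rintro y ⟨i, hi⟩
        exact ⟨i, by rw [map_inv, hi, inv_one]⟩ }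
  have hN : N.Normal := ⟨by
    rintro y ⟨i, hi⟩ z
    exact ⟨i, by rw [map_mul, map_mul, hi, mul_one, map_inv, mul_inv_cancel]⟩⟩
  -- the homomorphism of the centre
  let fA0 : G →* LK W m b (K 0) ⧸ N :=
    (QuotientGroup.mk' N).comp ((sA W _ _).comp (QuotientGroup.mk' (K 0)))
  have hfA0 : ∀ x, q x = 1 → fA0 x = 1 := by
    intro x hx
    obtain ⟨n, hn⟩ := (hker x).1 hx
    refine (QuotientGroup.eq_one_iff _).2 ?_
    refine ⟨n, ?_⟩
    rw [MonoidHom.comp_apply, tr_A, mk_ker _ hn, map_one]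
  let fA : B →* LK W m b (K 0) ⧸ N :=
    q.liftOfRightInverse (Function.surjInv hq) (Function.rightInverse_surjInv hq) ⟨fA0, hfA0⟩
  have hfA : ∀ x, fA (q x) = fA0 x := fun x =>
    MonoidHom.liftOfRightInverse_comp_apply q _ _ ⟨fA0, hfA0⟩ x
  let m' : H →* G ⧸ K 0 := (QuotientGroup.mk' (K 0)).comp m
  let b' : Bd d P H →* G ⧸ K 0 := (QuotientGroup.mk' (K 0)).comp b
  have c1 : ∀ c : H, (QuotientGroup.mk' N).comp (sV W m' b') (W.iV c) = fA (q (m c)) := by
    intro c
    rw [hfA]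
    exact congrArg (QuotientGroup.mk' N) (s_glueV W m' b' c)
  have c2 : ∀ c : Bd d P H, fA (q (b c)) = (QuotientGroup.mk' N).comp (sU W m' b') (W.iU c) := by
    intro c
    rw [hfA]
    exact congrArg (QuotientGroup.mk' N) (s_glueU W m' b' c)
  let g : SS3 W B (q.comp m) (q.comp b) →* LK W m b (K 0) ⧸ N :=
    sL W _ _ ((QuotientGroup.mk' N).comp (sV W m' b')) fA
      ((QuotientGroup.mk' N).comp (sU W m' b')) c1 c2
  have hg : ∀ x, g (tr W m b q (K 0) (hle 0) x) = QuotientGroup.mk' N x := by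
    intro x
    refine lk_ext W m b (f := g.comp (tr W m b q (K 0) (hle 0))) (g := QuotientGroup.mk' N)
      ?_ ?_ ?_ x
    · intro v
      rw [MonoidHom.comp_apply, tr_V]
      exact sL_V W _ _ _ _ _ _ _ v
    · intro v
      rw [MonoidHom.comp_apply, tr_A]
      exact (sL_A W _ _ _ _ _ _ _ (q v)).trans (hfA v)
    · intro v
      rw [MonoidHom.comp_apply, tr_U]
      exact sL_U W _ _ _ _ _ _ _ v
  refine hC.colim ℕ (fun i j => ⟨max i j, le_max_left i j, le_max_right i j⟩)
    (fun n => LK W m b (K n))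
    (fun i j h => tr W m b (QuotientGroup.mk' (K j)) (K i)
      (fun x hx => mk_ker (K j) (hK h hx))) (SS3 W B (q.comp m) (q.comp b))
    (fun i => tr W m b q (K i) (hle i)) ?_ ?_ ?_ ?_ ?_ h
  · intro i h x
    exact tr_self W m b _ _ x
  · intro i j k h h' x
    exact tr_tr W m b _ _ _ (hK h) _ _ x
  · intro i j h x
    exact tr_tr W m b _ _ _ (hK h) _ _ x
  · intro y
    obtain ⟨x, hx⟩ := tr_surj W m b q (K 0) (hle 0) hq y
    exact ⟨0, x, hx⟩
  · intro i x hx
    obtain ⟨y, rfl⟩ := hsurj 0 i (Nat.zero_le i) x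
    rw [tr_tr W m b q _ _ (hK (Nat.zero_le i)) (hle 0) (hle i)] at hx
    have h1 : QuotientGroup.mk' N y = 1 := by rw [← hg, hx, map_one]
    obtain ⟨j, hj⟩ : y ∈ N := (QuotientGroup.eq_one_iff _).1 h1
    refine ⟨max i j, le_max_left i j, ?_⟩
    rw [tr_tr W m b _ _ _ (hK (Nat.zero_le i))
      (fun x hx => mk_ker (K (max i j)) (hK (Nat.zero_le _) hx)),
      ← tr_tr W m b _ (K 0) (K j) (hK (Nat.zero_le j)) _
          (fun x hx => mk_ker (K (max i j)) (hK (le_max_right i j) hx)) y, hj, map_one]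

end quo

/-! ## the induction -/

theorem al_add' (h : T X) (m n : ℕ) :
    al (dray d) (al (dray d) h m) n = al (dray d) h (m + n) := by
  induction n with
  | zero => rfl
  | succ n ih => rw [al, ih]; rfl

theorem Bd_sec' {c : T X} (hc : c ∈ Bd d P H) : sec c d ∈ Bd d P H := by
  have h1 : sec c d = al (dray d) c 1 := rfl
  obtain ⟨hb1, hb2, hb3⟩ := hc
  refine ⟨?_, ?_, ?_⟩
  · intro n
    rw [h1, al_add']
    exact hb1 _
  · rw [h1, al_add', Nat.add_comm, ← al_add', hb2]
  · intro n x hx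
    rw [h1, al_add']
    exact hb3 _ x hx

theorem wmap_inj {A B : Type} [Group A] [Group B] (f : A →* B) (hf : Function.Injective f) :
    Function.Injective (wmap (X := X) f) := by
  intro a b hab
  apply Wr.ext
  · funext x
    exact hf (congrFun (congrArg Wr.s hab) x)
  · have h1 : (wmap f a).p = (wmap f b).p := congrArg Wr.p hab
    exact h1

/-- the homomorphism on `U` -/
noncomputable def uW {L : Type} [Group L] (fV : W.V →* L) (fU : W.U →* L) : W.U →* Wr X L where
  toFun u := ⟨fun x => if x = d then fU (W.rU u) else fV ((W.oU u).s x), (W.oU u).p⟩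
  map_one' := by
    apply Wr.ext
    · funext x
      by_cases hx : x = d
      · simp only [hx, if_true, map_one, Wr.one_s]
      · simp only [hx, if_false, map_one, Wr.one_s]
    · simp only [map_one, Wr.one_p]
  map_mul' u v := by
    apply Wr.ext
    · funext x
      by_cases hx : x = d
      · simp only [hx, if_true, map_mul, Wr.mul_s, W.oU_p]
      · have h1 : (W.oU v).p x ≠ d := fun h =>
          hx ((W.oU v).p.injective (h.trans (W.oU_p v).symm))
        simp only [hx, if_false, map_mul, Wr.mul_s, h1]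
    · simp only [map_mul, Wr.mul_p]

theorem uW_d {L : Type} [Group L] (fV : W.V →* L) (fU : W.U →* L) (u : W.U) :
    (uW W fV fU u).s d = fU (W.rU u) := if_pos rfl

theorem uW_x {L : Type} [Group L] (fV : W.V →* L) (fU : W.U →* L) (u : W.U) {x : X}
    (hx : x ≠ d) : (uW W fV fU u).s x = fV ((W.oU u).s x) := if_neg hx

theorem uW_p {L : Type} [Group L] (fV : W.V →* L) (fU : W.U →* L) (u : W.U) :
    (uW W fV fU u).p = (W.oU u).p := rfl

theorem uW_inj {L : Type} [Group L] (fV : W.V →* L) (fU : W.U →* L)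
    (hfV : Function.Injective fV) (hfU : Function.Injective fU) :
    ∀ A ∈ W.FU, ∀ a ∈ A, uW W fV fU a = 1 → a = 1 := by
  intro A hA a ha h
  refine W.rU_inj A hA a ha ?_ ?_
  · apply hfU
    rw [← uW_d W fV fU a, h, map_one]
    rfl
  · apply Wr.ext
    · funext x
      by_cases hx : x = d
      · rw [hx, W.oU_s]
        rfl
      · apply hfV
        rw [← uW_x W fV fU a hx, h]
        exact (map_one fV).symm
    · rw [← uW_p W fV fU a, h]
      rfl

theorem C_LK (hWR : S_WR) (hINJ : S_AMINJ) (hTLA : S_TLA) (hC : ClosedE C) (hX : Finite X)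
    (hH : SelfSim H) {G : Type} [Group G] (m : H →* G) (b : Bd d P H →* G)
    (ψ : G →* Wr X G)
    (hm1 : ∀ (h : H) (x : X) (hx : sec h.1 x ∈ H), (ψ (m h)).s x = m ⟨sec h.1 x, hx⟩)
    (hm2 : ∀ h : H, (ψ (m h)).p = root h.1)
    (hb1 : ∀ (c : Bd d P H) (hb : sec c.1 d ∈ Bd d P H), (ψ (b c)).s d = b ⟨sec c.1 d, hb⟩)
    (hb2 : ∀ (c : Bd d P H) (x : X) (hx : sec c.1 x ∈ H), x ≠ d →
      (ψ (b c)).s x = m ⟨sec c.1 x, hx⟩)
    (hb3 : ∀ c : Bd d P H, (ψ (b c)).p = root c.1)
    (im : ∀ n (h : H), m h ∈ Kn ψ n → h = 1) (ib : ∀ n (c : Bd d P H), b c ∈ Kn ψ n → c = 1)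
    (hyp : C (SS3 W G m b)) (n : ℕ) : C (LK W m b (Kn ψ n)) := by
  have im' : ∀ n, Function.Injective ((QuotientGroup.mk' (Kn ψ n)).comp m) := by
    intro n
    rw [injective_iff_map_eq_one]
    exact fun a ha => im n a ((QuotientGroup.eq_one_iff _).1 ha)
  have ib' : ∀ n, Function.Injective ((QuotientGroup.mk' (Kn ψ n)).comp b) := by
    intro n
    rw [injective_iff_map_eq_one]
    exact fun a ha => ib n a ((QuotientGroup.eq_one_iff _).1 ha)
  have im0 : Function.Injective m := by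
    rw [injective_iff_map_eq_one]
    exact fun a ha => im 0 a (by rw [ha]; exact one_mem _)
  have ib0 : Function.Injective b := by
    rw [injective_iff_map_eq_one]
    exact fun a ha => ib 0 a (by rw [ha]; exact one_mem _)
  induction n with
  | zero =>
    have si := s_inj W m b hINJ im0 ib0
    let l : G ⧸ Kn ψ 0 →* G := QuotientGroup.lift (Kn ψ 0) (MonoidHom.id G) (fun x hx => hx)
    have hl : ∀ a, l a = 1 → a = 1 := by
      intro a ha
      obtain ⟨y, rfl⟩ := QuotientGroup.mk'_surjective (Kn ψ 0) a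
      have h1 : y = 1 := ha
      rw [h1, map_one]
    refine C_SS3 W _ _ hC hINJ hTLA {⊤} (tl_top _) (im' 0) (ib' 0) ⟨⊤, rfl, le_top⟩
      ⟨⊤, rfl, le_top⟩ hyp (sV W m b) ((sA W m b).comp l) (sU W m b) (s_glueV W m b)
      (s_glueU W m b) ?_ ?_ ?_
    · intro A _ a _ h
      exact si.1 (h.trans (map_one _).symm)
    · intro A _ a _ h
      exact hl a (si.2.1 (h.trans (map_one _).symm))
    · intro A _ a _ h
      exact si.2.2 (h.trans (map_one _).symm)
  | succ n ih =>
    let m' : H →* G ⧸ Kn ψ n := (QuotientGroup.mk' (Kn ψ n)).comp m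
    let b' : Bd d P H →* G ⧸ Kn ψ n := (QuotientGroup.mk' (Kn ψ n)).comp b
    have si := s_inj W m' b' hINJ (im' n) (ib' n)
    have hL : C (Wr X (LK W m b (Kn ψ n))) := hWR C hC.base X _ hX ih
    let e : G →* LK W m b (Kn ψ n) := (sA W m' b').comp (QuotientGroup.mk' (Kn ψ n))
    let fV : W.V →* Wr X (LK W m b (Kn ψ n)) := (wmap (sV W m' b')).comp W.rV
    let fA0 : G →* Wr X (LK W m b (Kn ψ n)) := (wmap e).comp ψ
    let fU : W.U →* Wr X (LK W m b (Kn ψ n)) := uW W (sV W m' b') (sU W m' b')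
    have hA0 : ∀ g : G, fA0 g = 1 ↔ g ∈ Kn ψ (n + 1) := by
      intro g
      rw [mem_Kn_succ]
      constructor
      · intro h
        refine ⟨?_, fun x => ?_⟩
        · have h1 : (fA0 g).p = 1 := by rw [h]; rfl
          exact h1
        · have h1 : (fA0 g).s x = 1 := by rw [h]; rfl
          have h2 : sA W m' b' (QuotientGroup.mk' (Kn ψ n) ((ψ g).s x)) = 1 := h1
          exact (QuotientGroup.eq_one_iff _).1 (si.2.1 (h2.trans (map_one _).symm))
      · rintro ⟨h1, h2⟩
        apply Wr.ext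
        · funext x
          change sA W m' b' (QuotientGroup.mk' (Kn ψ n) ((ψ g).s x)) = 1
          rw [mk_ker _ (h2 x), map_one]
        · exact h1
    let fA : G ⧸ Kn ψ (n + 1) →* Wr X (LK W m b (Kn ψ n)) :=
      QuotientGroup.lift (Kn ψ (n + 1)) fA0 (fun x hx => (hA0 x).2 hx)
    have hfA : ∀ a, fA a = 1 → a = 1 := by
      intro a ha
      obtain ⟨y, rfl⟩ := QuotientGroup.mk'_surjective (Kn ψ (n + 1)) a
      exact mk_ker _ ((hA0 y).1 ha)
    refine C_SS3 W _ _ hC hINJ hTLA {⊤} (tl_top _) (im' (n + 1)) (ib' (n + 1)) ⟨⊤, rfl, le_top⟩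
      ⟨⊤, rfl, le_top⟩ hL fV fA fU ?_ ?_ ?_ ?_ ?_
    · intro c
      change wmap (sV W m' b') (W.rV (W.iV c)) = wmap e (ψ (m c))
      apply Wr.ext
      · funext x
        have hx : sec c.1 x ∈ H := hH c.1 c.2 x
        rw [wmap_s, wmap_s, W.rV_s c x hx, hm1 c x hx]
        exact s_glueV W m' b' ⟨sec c.1 x, hx⟩
      · rw [wmap_p, wmap_p, W.rV_p, hm2]
    · intro c
      change wmap e (ψ (b c)) = uW W (sV W m' b') (sU W m' b') (W.iU c)
      have hcd : sec c.1 d ∈ Bd d P H := Bd_sec' c.2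
      apply Wr.ext
      · funext x
        by_cases hx : x = d
        · subst hx
          rw [wmap_s, uW_d, hb1 c hcd, W.rU_i c hcd]
          exact s_glueU W m' b' ⟨sec c.1 x, hcd⟩
        · have hx' : sec c.1 x ∈ H := c.2.2.2 0 x hx
          rw [wmap_s, uW_x W _ _ _ hx, hb2 c x hx' hx, W.oU_i c x hx' hx]
          exact (s_glueV W m' b' ⟨sec c.1 x, hx'⟩).symm
      · rw [wmap_p, uW_p, hb3, W.oU_ip]
    · intro A hA a ha h
      refine W.rV_inj A hA a ha ?_
      exact wmap_inj (sV W m' b') si.1 (h.trans (map_one _).symm)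
    · intro A _ a _ h
      exact hfA a h
    · exact uW_inj W _ _ si.1 si.2.2

/-- **approximation of the centre** -/
theorem t_app (hWR : S_WR) (hINJ : S_AMINJ) (hTLA : S_TLA) (hCOV : S_COV) : S_APP := by
  intro C hC X hX d P hP H M E h1 h2 hH hM hE hF hHM W hyp
  obtain ⟨ψ, π, p1, p2, p3, p4, p5, q1, q2, hdie⟩ := hCOV X d P hP M E h1 h2 hM hE hF
  let m : H →* Cov d P M E h1 h2 := (Am.inl _ _).comp (Subgroup.inclusion hHM)
  let b : Bd d P H →* Cov d P M E h1 h2 := (Am.inr _ _).comp (Subgroup.inclusion (Bd_mono hHM))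
  have hπ : ∀ g, π g ∈ M ⊔ Bd d P M := by
    intro g
    have h3 : g ∈ (Am.inl (Subgroup.inclusion h1) (Subgroup.inclusion h2)).range ⊔
        (Am.inr (Subgroup.inclusion h1) (Subgroup.inclusion h2)).range := by
      rw [Am.sup_range]
      trivial
    have h4 : (Am.inl (Subgroup.inclusion h1) (Subgroup.inclusion h2)).range ⊔
        (Am.inr (Subgroup.inclusion h1) (Subgroup.inclusion h2)).range ≤
        (M ⊔ Bd d P M).comap π := by
      rw [sup_le_iff]
      constructor
      · rintro _ ⟨v, rfl⟩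
        rw [Subgroup.mem_comap, q1]
        exact le_sup_left (a := M) v.2
      · rintro _ ⟨v, rfl⟩
        rw [Subgroup.mem_comap, q2]
        exact le_sup_right (a := M) v.2
    exact h4 h3
  let q : Cov d P M E h1 h2 →* ↥(M ⊔ Bd d P M) := π.codRestrict _ hπ
  have hq1 : ∀ h : M, q (Am.inl _ _ h) = Subgroup.inclusion le_sup_left h :=
    fun h => Subtype.ext (q1 h)
  have hq2 : ∀ h : Bd d P M, q (Am.inr _ _ h) = Subgroup.inclusion le_sup_right h :=
    fun h => Subtype.ext (q2 h)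
  have hq : Function.Surjective q := by
    have h3 : M ⊔ Bd d P M ≤ π.range := by
      rw [sup_le_iff]
      exact ⟨fun h hh => ⟨_, q1 ⟨h, hh⟩⟩, fun h hh => ⟨_, q2 ⟨h, hh⟩⟩⟩
    rintro ⟨y, hy⟩
    obtain ⟨x, hx⟩ := h3 hy
    exact ⟨x, Subtype.ext hx⟩
  have hker : ∀ x, q x = 1 ↔ ∃ n, x ∈ Kn ψ n := by
    intro x
    rw [← dies_iff, ← hdie]
    constructor
    · intro h
      exact congrArg Subtype.val h
    · intro h
      exact Subtype.ext h
  have key : ∀ n, C (LK W m b (Kn ψ n)) := by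
    intro n
    refine C_LK W hWR hINJ hTLA hC hX hH m b ψ ?_ ?_ ?_ ?_ ?_ ?_ ?_ hyp n
    · intro h x hx
      exact p1 (Subgroup.inclusion hHM h) x (hHM hx)
    · intro h
      exact p2 (Subgroup.inclusion hHM h)
    · intro c hc
      exact p3 (Subgroup.inclusion (Bd_mono hHM) c) (Bd_mono hHM hc)
    · intro c x hx hxd
      exact p4 (Subgroup.inclusion (Bd_mono hHM) c) x (hHM hx) hxd
    · intro c
      exact p5 (Subgroup.inclusion (Bd_mono hHM) c)
    · intro n h hn
      have h3 : q (m h) = 1 := (hker _).2 ⟨n, hn⟩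
      have h4 : q (m h) = Subgroup.inclusion le_sup_left (Subgroup.inclusion hHM h) := hq1 _
      rw [h3] at h4
      exact Subtype.ext (congrArg Subtype.val h4).symm
    · intro n h hn
      have h3 : q (b h) = 1 := (hker _).2 ⟨n, hn⟩
      have h4 : q (b h) = Subgroup.inclusion le_sup_right (Subgroup.inclusion (Bd_mono hHM) h) :=
        hq2 _
      rw [h3] at h4
      exact Subtype.ext (congrArg Subtype.val h4).symm
  have h5 := C_colim W m b q hC.base (Kn ψ) (fun n => inferInstance) (Kn_mono ψ) hq hker key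
  have e1 : q.comp m = Subgroup.inclusion (hHM.trans le_sup_left) :=
    MonoidHom.ext fun c => hq1 _
  have e2 : q.comp b = Subgroup.inclusion ((Bd_mono hHM).trans le_sup_right) :=
    MonoidHom.ext fun c => hq2 _
  rw [e1, e2] at h5
  exact h5

end Pool.Agent.Y462.PA
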