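import Pool.Agent.Y462.PA.Def

/-!
# Polynomial activity: contexts

Owner helper462.
-/

set_option autoImplicit false

open Classical

namespace Pool.Agent.Y462.PA

open Pool.Agent.Y462.SS
open Pool.Agent.Y110.FJ (ClosedE S_EXT S_PERM S_AM)

variable {X : Type}

/-- a context over `H`: a group `V` which contains `H` with a recursion, and a group `U` which
contains `Bd d P H` with a recursion directed along `d d d ...` -/
structure Ctx (C : ∀ (G : Type) [Group G], Prop) (d : X) (P : ℕ) (H : Subgroup (T X)) where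
  V : Type
  U : Type
  gV : Group V
  gU : Group U
  FV : Set (Subgroup V)
  FU : Set (Subgroup U)
  tV : TL C V FV
  tU : TL C U FU
  iV : H →* V
  iU : Bd d P H →* U
  iV_inj : Function.Injective iV
  iU_inj : Function.Injective iU
  iV_le : ∃ A ∈ FV, iV.range ≤ A
  iU_le : ∃ A ∈ FU, iU.range ≤ A
  /-- the recursion of `V` -/
  rV : V →* Wr X V
  /-- the section along the ray -/
  rU : U →* U
  /-- the sections off the ray -/
  oU : U →* Wr X V
  rV_inj : ∀ A ∈ FV, ∀ a ∈ A, rV a = 1 → a = 1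
  rU_inj : ∀ A ∈ FU, ∀ a ∈ A, rU a = 1 → oU a = 1 → a = 1
  oU_p : ∀ u, (oU u).p d = d
  oU_s : ∀ u, (oU u).s d = 1
  rV_s : ∀ (h : H) (x : X) (hx : sec h.1 x ∈ H), (rV (iV h)).s x = iV ⟨sec h.1 x, hx⟩
  rV_p : ∀ h : H, (rV (iV h)).p = root h.1
  rU_i : ∀ (b : Bd d P H) (hb : sec b.1 d ∈ Bd d P H), rU (iU b) = iU ⟨sec b.1 d, hb⟩
  oU_i : ∀ (b : Bd d P H) (x : X) (hx : sec b.1 x ∈ H), x ≠ d →
    (oU (iU b)).s x = iV ⟨sec b.1 x, hx⟩
  oU_ip : ∀ b : Bd d P H, (oU (iU b)).p = root b.1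

attribute [instance] Ctx.gV Ctx.gU

theorem Bd_mono {d : X} {P : ℕ} {H K : Subgroup (T X)} (h : H ≤ K) : Bd d P H ≤ Bd d P K :=
  fun _ hb => ⟨hb.1, hb.2.1, fun n x hx => h (hb.2.2 n x hx)⟩

variable {C : ∀ (G : Type) [Group G], Prop} {d : X} {P : ℕ}

/-- restriction of a context to a self-similar subgroup -/
def Ctx.res {K : Subgroup (T X)} (W : Ctx C d P K) (H : Subgroup (T X)) (h : H ≤ K) :
    Ctx C d P H where
  V := W.V
  U := W.U
  gV := W.gV
  gU := W.gU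
  FV := W.FV
  FU := W.FU
  tV := W.tV
  tU := W.tU
  iV := W.iV.comp (Subgroup.inclusion h)
  iU := W.iU.comp (Subgroup.inclusion (Bd_mono h))
  iV_inj := W.iV_inj.comp (Subgroup.inclusion_injective h)
  iU_inj := W.iU_inj.comp (Subgroup.inclusion_injective (Bd_mono h))
  iV_le := by
    obtain ⟨A, hA, hA'⟩ := W.iV_le
    refine ⟨A, hA, le_trans ?_ hA'⟩
    rintro _ ⟨c, rfl⟩
    exact ⟨_, rfl⟩
  iU_le := by
    obtain ⟨A, hA, hA'⟩ := W.iU_le
    refine ⟨A, hA, le_trans ?_ hA'⟩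
    rintro _ ⟨c, rfl⟩
    exact ⟨_, rfl⟩
  rV := W.rV
  rU := W.rU
  oU := W.oU
  rV_inj := W.rV_inj
  rU_inj := W.rU_inj
  oU_p := W.oU_p
  oU_s := W.oU_s
  rV_s := fun a x hx => W.rV_s (Subgroup.inclusion h a) x (h hx)
  rV_p := fun a => W.rV_p (Subgroup.inclusion h a)
  rU_i := fun b hb => W.rU_i (Subgroup.inclusion (Bd_mono h) b) (Bd_mono h hb)
  oU_i := fun b x hx hxd => W.oU_i (Subgroup.inclusion (Bd_mono h) b) x (h hx) hxd
  oU_ip := fun b => W.oU_ip (Subgroup.inclusion (Bd_mono h) b)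

/-- `V` amalgamated with `U` over `E` -/
abbrev DD {H : Subgroup (T X)} (W : Ctx C d P H) (E : Subgroup (T X)) (h1 : E ≤ H)
    (h2 : E ≤ Bd d P H) : Type :=
  Am (W.iV.comp (Subgroup.inclusion h1)) (W.iU.comp (Subgroup.inclusion h2))

/-- the group `A` with `V` attached along `H` and `U` attached along `Bd d P H` -/
abbrev SS3 {H : Subgroup (T X)} (W : Ctx C d P H) (A : Type) [Group A] (m : H →* A)
    (b : Bd d P H →* A) : Type :=
  Am ((Am.inr W.iV m).comp b) W.iU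

/-- the cover of `M ⊔ Bd d P M` -/
abbrev Cov (d : X) (P : ℕ) (M E : Subgroup (T X)) (h1 : E ≤ M) (h2 : E ≤ Bd d P M) : Type :=
  Am (Subgroup.inclusion h1) (Subgroup.inclusion h2)

end Pool.Agent.Y462.PA
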