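import Pool.Agent.Y462.SS.Det
import Pool.Agent.Y110.FJ.Stm

/-!
# Polynomial activity: definitions

Owner helper462.
-/

set_option autoImplicit false

open Classical

namespace Pool.Agent.Y462.PA

open Pool.Agent.Y462.SS
open Pool.Agent.Y110.FJ (ClosedE S_EXT S_PERM S_AM)

/-! ## amalgamated products -/

section Am

variable {K A B : Type} [Group K] [Group A] [Group B]

/-- the relations of the amalgamated product -/
def amRel (α : K →* A) (β : K →* B) : Set (Monoid.Coprod A B) :=
  {r | ∃ c : K, r = Monoid.Coprod.inl (α c) * (Monoid.Coprod.inr (β c))⁻¹}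

/-- the amalgamated product of `A` and `B` over `K` -/
def Am (α : K →* A) (β : K →* B) : Type :=
  Monoid.Coprod A B ⧸ Subgroup.normalClosure (amRel α β)

namespace Am

variable (α : K →* A) (β : K →* B)

noncomputable instance : Group (Am α β) :=
  inferInstanceAs (Group (Monoid.Coprod A B ⧸ Subgroup.normalClosure (amRel α β)))

/-- the first factor -/
noncomputable def inl : A →* Am α β :=
  (QuotientGroup.mk' (Subgroup.normalClosure (amRel α β))).comp Monoid.Coprod.inl

/-- the second factor -/
noncomputable def inr : B →* Am α β :=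
  (QuotientGroup.mk' (Subgroup.normalClosure (amRel α β))).comp Monoid.Coprod.inr

theorem glue (c : K) : inl α β (α c) = inr α β (β c) := by
  change (QuotientGroup.mk' (Subgroup.normalClosure (amRel α β))) _ =
    (QuotientGroup.mk' (Subgroup.normalClosure (amRel α β))) _
  rw [← mul_inv_eq_one, ← map_inv, ← map_mul]
  exact (QuotientGroup.eq_one_iff _).2 (Subgroup.subset_normalClosure ⟨c, rfl⟩)

variable {H : Type} [Group H]

/-- the universal property -/
noncomputable def lift (f : A →* H) (g : B →* H) (h : ∀ c : K, f (α c) = g (β c)) :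
    Am α β →* H :=
  QuotientGroup.lift (Subgroup.normalClosure (amRel α β)) (Monoid.Coprod.lift f g) (by
    intro x hx
    refine Subgroup.normalClosure_le_normal ?_ hx
    rintro _ ⟨c, rfl⟩
    rw [SetLike.mem_coe, MonoidHom.mem_ker, map_mul, map_inv, Monoid.Coprod.lift_apply_inl,
      Monoid.Coprod.lift_apply_inr, h, mul_inv_cancel])

@[simp] theorem lift_inl (f : A →* H) (g : B →* H) (h : ∀ c : K, f (α c) = g (β c)) (a : A) :
    lift α β f g h (inl α β a) = f a := by
  change Monoid.Coprod.lift f g (Monoid.Coprod.inl a) = f a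
  rw [Monoid.Coprod.lift_apply_inl]

@[simp] theorem lift_inr (f : A →* H) (g : B →* H) (h : ∀ c : K, f (α c) = g (β c)) (b : B) :
    lift α β f g h (inr α β b) = g b := by
  change Monoid.Coprod.lift f g (Monoid.Coprod.inr b) = g b
  rw [Monoid.Coprod.lift_apply_inr]

theorem hom_ext {f g : Am α β →* H} (h1 : ∀ a, f (inl α β a) = g (inl α β a))
    (h2 : ∀ b, f (inr α β b) = g (inr α β b)) : f = g := by
  apply QuotientGroup.monoidHom_ext
  apply Monoid.Coprod.hom_ext
  · exact MonoidHom.ext h1
  · exact MonoidHom.ext h2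

theorem sup_range : (inl α β).range ⊔ (inr α β).range = ⊤ := by
  rw [eq_top_iff]
  intro x _
  obtain ⟨y, rfl⟩ := QuotientGroup.mk'_surjective (Subgroup.normalClosure (amRel α β)) x
  induction y using Monoid.Coprod.induction_on with
  | inl a => exact Subgroup.mem_sup_left ⟨a, rfl⟩
  | inr b => exact Subgroup.mem_sup_right ⟨b, rfl⟩
  | mul x y hx hy =>
    rw [map_mul]
    exact mul_mem (hx trivial) (hy trivial)

end Am

end Am

/-- families of vertex groups: a homomorphism which is injective on the members extends to an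
embedding into a group in `C`, which is on each member given by an embedding of the target -/
def TL (C : ∀ (G : Type) [Group G], Prop) (V : Type) [Group V] (F : Set (Subgroup V)) : Prop :=
  ∀ (P : Type) [Group P] (f : V →* P), C P → (∀ A ∈ F, ∀ a ∈ A, f a = 1 → a = 1) →
    ∃ (Q : Type) (_ : Group Q) (Θ : V →* Q), C Q ∧ Function.Injective Θ ∧
      ∀ A ∈ F, ∃ l : P →* Q, Function.Injective l ∧ ∀ a ∈ A, Θ a = l (f a)

/-! ## directed automorphisms -/

variable {X : Type}

/-- the constant ray -/
def dray (d : X) : ℕ → X := fun _ => d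

/-- closed under sections -/
def SelfSim (H : Subgroup (T X)) : Prop := ∀ h ∈ H, ∀ x, sec h x ∈ H

/-- `h` fixes the ray `d d d ...` -/
def Fx (d : X) (h : T X) : Prop := ∀ n, root (al (dray d) h n) d = d

theorem al_mul {d : X} {a b : T X} (hb : Fx d b) (n : ℕ) :
    al (dray d) (a * b) n = al (dray d) a n * al (dray d) b n := by
  induction n with
  | zero => rfl
  | succ n ih =>
    rw [al, ih, sec_mul]
    change sec (al (dray d) a n) (root (al (dray d) b n) d) * _ = _
    rw [hb n]
    rfl

theorem al_one (d : X) (n : ℕ) : al (dray d) (1 : T X) n = 1 := by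
  induction n with
  | zero => rfl
  | succ n ih => rw [al, ih, sec_one]

theorem Fx_mul {d : X} {a b : T X} (ha : Fx d a) (hb : Fx d b) : Fx d (a * b) := by
  intro n
  rw [al_mul hb, root_mul, Equiv.Perm.mul_apply, hb n, ha n]

theorem Fx_one (d : X) : Fx d (1 : T X) := by
  intro n
  rw [al_one]
  rfl

theorem al_inv {d : X} {a : T X} (ha : Fx d a) (n : ℕ) :
    al (dray d) a⁻¹ n = (al (dray d) a n)⁻¹ := by
  induction n with
  | zero => rfl
  | succ n ih =>
    rw [al, ih, sec_inv]
    have h1 : (root (al (dray d) a n))⁻¹ d = d := by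
      rw [Equiv.Perm.inv_eq_iff_eq, ha n]
    change (sec (al (dray d) a n) ((root (al (dray d) a n))⁻¹ d))⁻¹ = _
    rw [h1]
    rfl

theorem Fx_inv {d : X} {a : T X} (ha : Fx d a) : Fx d a⁻¹ := by
  intro n
  rw [al_inv ha, root_inv, Equiv.Perm.inv_eq_iff_eq, ha n]

/-- the `P`-periodic automorphisms which are directed along the ray `d d d ...`, with sections in
`H` off the ray -/
def Bd (d : X) (P : ℕ) (H : Subgroup (T X)) : Subgroup (T X) where
  carrier := {b | Fx d b ∧ al (dray d) b P = b ∧ ∀ n x, x ≠ d → sec (al (dray d) b n) x ∈ H}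
  one_mem' := ⟨Fx_one d, al_one d P, fun n x _ => by rw [al_one, sec_one]; exact one_mem _⟩
  mul_mem' := by
    rintro a b ⟨ha1, ha2, ha3⟩ ⟨hb1, hb2, hb3⟩
    refine ⟨Fx_mul ha1 hb1, ?_, ?_⟩
    · rw [al_mul hb1, ha2, hb2]
    · intro n x hx
      rw [al_mul hb1, sec_mul]
      refine mul_mem (ha3 n _ ?_) (hb3 n x hx)
      intro h
      exact hx ((root (al (dray d) b n)).injective (h.trans (hb1 n).symm))
  inv_mem' := by
    rintro a ⟨ha1, ha2, ha3⟩
    refine ⟨Fx_inv ha1, ?_, ?_⟩
    · rw [al_inv ha1, ha2]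
    · intro n x hx
      rw [al_inv ha1, sec_inv]
      refine inv_mem (ha3 n _ ?_)
      intro h
      rw [Equiv.Perm.inv_eq_iff_eq, ha1 n] at h
      exact hx h

/-- the group generated by the `P`-periodic automorphisms directed along a `P`-periodic ray with
trivial sections off the ray -/
def M0 (X : Type) (P : ℕ) : Subgroup (T X) :=
  Subgroup.closure {h | ∃ ξ : ℕ → X, (∀ n, ξ (n + P) = ξ n) ∧ al ξ h P = h ∧ Dir 0 ξ h}

/-- the chain of groups -/
def Mx (d : X) (P : ℕ) : ℕ → Subgroup (T X)
  | 0 => ⊥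
  | 1 => M0 X P
  | s + 2 => Lv (Mx d P (s + 1) ⊔ Bd d P (Mx d P (s + 1))) 1

/-- the polynomial activity -/
def PolyActivity (g : Equiv.Perm (List X)) : Prop :=
  ∃ c e : ℕ, ∀ n : ℕ, {v : List X | v.length = n ∧ ∃ w, g (v ++ w) ≠ g v ++ w}.ncard ≤
    c * (n + 1) ^ e

end Pool.Agent.Y462.PA
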