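import Pool.Agent.Y462.PA.Main
import Pool.Agent.Y462.PA.App
import Pool.Agent.Y179.SS.Free
import Pool.Agent.Y331.SS.Lim
import Pool.Agent.Y430.SS.Lf
import Pool.Agent.Y812.SS.Wr
import Pool.Agent.Y529.FJ.Ext
import Pool.Agent.Y961.FJ.Perm
import Pool.Agent.Y919.PA.Emb
import Pool.Agent.Y604.PA.AmInj
import Pool.Agent.Y419.PA.Tla
import Pool.Agent.Y261.PA.FIN
import Pool.Agent.Y438.PA.Bdf
import Pool.Agent.Y681.PA.Mx
import Pool.Agent.Y79.PA.Mxp
import Pool.Agent.Y500.PA.Res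
import Pool.Agent.Y430.PA.Cov
import Pool.Agent.Y858.PA.Lvc
import Pool.Agent.Y383.PA.Enl
import Pool.Agent.Y434.PA.Au1
import Pool.Agent.Y73.PA.AU2
import Pool.Agent.Y936.PA.Au3

/-!
# Groups generated by finite-state automorphisms of polynomial activity: the theorem

Owner helper462. Amalgamated products: helpers 110, 417, 529, 961, 919, 604, 419; wreath products and
limits: helpers 179, 331, 430, 812; the steps: helpers 261, 438, 681, 79, 500, 430, 858, 383, 434, 73,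
936.
-/

set_option autoImplicit false

namespace Pool.Agent.Y462.PA

open Pool.Agent.Y462.SS hiding Bd
open Pool.Agent.Y110.FJ (ClosedE)

/-- **groups generated by finite-state automorphisms of polynomial activity** -/
theorem poly (C : ∀ (G : Type) [Group G], Prop) (hC : ClosedE C)
    (X : Type) (hX : Finite X) (G : Type) [Group G] (f : G →* Equiv.Perm (List X))
    (hf : Function.Injective f) (S : Set G) (hS : Subgroup.closure S = ⊤)
    (hT : ∀ s ∈ S, IsTree (f s)) (hF : ∀ s ∈ S, (Sections (f s)).Finite)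
    (hB : ∀ s ∈ S, PolyActivity (f s)) : C G :=
  have hWR := Pool.Agent.Y812.SS.t_wr
  have hINJ := Pool.Agent.Y604.PA.t_aminj
  have hTLA := Pool.Agent.Y419.PA.t_tla
    (Pool.Agent.Y919.PA.t_emb (Pool.Agent.Y961.FJ.t_perm Pool.Agent.Y529.FJ.t_ext))
  have hCOV := Pool.Agent.Y430.PA.t_cov
  poly_closed hWR Pool.Agent.Y430.SS.t_lf Pool.Agent.Y430.SS.t_pow Pool.Agent.Y179.SS.t_free
    (Pool.Agent.Y331.SS.t_lim hWR) Pool.Agent.Y430.SS.t_union hINJ hTLA
    (Pool.Agent.Y261.PA.t_fin hWR) Pool.Agent.Y438.PA.t_bd Pool.Agent.Y500.PA.t_res hCOV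
    (t_app hWR hINJ hTLA hCOV) (Pool.Agent.Y858.PA.t_lvc hWR hINJ hTLA)
    (Pool.Agent.Y383.PA.t_enl hINJ hTLA) Pool.Agent.Y681.PA.t_mx Pool.Agent.Y79.PA.t_mxp
    Pool.Agent.Y434.PA.t_au1 Pool.Agent.Y73.PA.t_au2 Pool.Agent.Y936.PA.Au3.t_au3
    C hC X hX G f hf S hS hT hF hB

end Pool.Agent.Y462.PA
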