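import Pool.Agent.Y462.PA.Mem

/-!
# Groups of automorphisms of polynomial activity: the theorem from the statements of the jobs

Owner helper462.
-/

set_option autoImplicit false

open scoped Nat

namespace Pool.Agent.Y462.PA

open Pool.Agent.Y462.SS hiding Bd
open Pool.Agent.Y110.FJ (ClosedE)

/-- groups generated by finite-state automorphisms of polynomial activity -/
theorem poly_closed (hWR : S_WR) (hLF : S_LF) (hPOW : S_POW) (hFREE : S_FREE) (hLIM : S_LIM)
    (hUNION : S_UNION) (hINJ : S_AMINJ) (hTLA : S_TLA) (hFIN : S_FIN) (hBD : S_BD)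
    (hRES : S_RES) (hCOV : S_COV) (hAPP : S_APP) (hLVC : S_LVC) (hENL : S_ENL) (hMX : S_MX)
    (hMXP : S_MXP) (hAU1 : S_AU1) (hAU2 : S_AU2) (hAU3 : S_AU3)
    (C : ∀ (G : Type) [Group G], Prop) (hC : ClosedE C)
    (X : Type) (hX : Finite X) (G : Type) [Group G] (f : G →* Equiv.Perm (List X))
    (hf : Function.Injective f) (S : Set G) (hS : Subgroup.closure S = ⊤)
    (hT : ∀ s ∈ S, IsTree (f s)) (hF : ∀ s ∈ S, (Sections (f s)).Finite)
    (hB : ∀ s ∈ S, PolyActivity (f s)) : C G := by
  have hmem : ∀ g, f g ∈ T X := by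
    have h1 : Subgroup.closure S ≤ (T X).comap f := by
      rw [Subgroup.closure_le]
      exact hT
    intro g
    have h2 : g ∈ Subgroup.closure S := by rw [hS]; exact Subgroup.mem_top g
    exact h1 h2
  rcases isEmpty_or_nonempty X with hE | ⟨⟨d⟩⟩
  · have h1 : ∀ g : G, f g = 1 := by
      intro g
      apply Equiv.ext
      intro w
      cases w with
      | nil => exact apply_nil (hmem g)
      | cons x _ => exact (hE.false x).elim
    have h2 : Subsingleton G := ⟨fun a b => hf ((h1 a).trans (h1 b).symm)⟩
    exact finite_closed C hC.base hLF G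
  · let f' : G →* T X := f.codRestrict (T X) hmem
    have hf' : Function.Injective f' := fun a b h => hf (congrArg Subtype.val h)
    let K : ℕ → Subgroup G := fun N => (Mx d N ! N).comap f'
    have hK : Monotone K := by
      apply monotone_nat_of_le_succ
      intro N g hg
      exact mx_mono hMX (Nat.factorial_pos (N + 1)) (Nat.le_succ N)
        (hMXP X d N ! (N + 1)! (Nat.factorial_pos (N + 1))
          (Nat.factorial_dvd_factorial (Nat.le_succ N)) N hg)
    have hKS : ∀ s ∈ S, ∃ N, s ∈ K N := by
      intro s hs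
      have h1 : {h : T X | ∃ v, h = secw (f' s) v}.Finite := hAU3 X (f' s) (hF s hs)
      obtain ⟨P, t, hP, h2⟩ := hAU2 hMX hMXP X hX d (f' s) h1 (hAU1 X hX (f' s) (hB s hs))
      refine ⟨max P t, ?_⟩
      exact mx_mono hMX (Nat.factorial_pos _) (le_max_right P t)
        (hMXP X d P (max P t)! (Nat.factorial_pos _)
          (Nat.dvd_factorial hP (le_max_left P t)) t h2)
    let U : Subgroup G :=
      { carrier := {g | ∃ N, g ∈ K N}
        one_mem' := ⟨0, one_mem _⟩
        mul_mem' := by
          rintro a b ⟨m, hm⟩ ⟨n, hn⟩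
          exact ⟨max m n, mul_mem (hK (le_max_left m n) hm) (hK (le_max_right m n) hn)⟩
        inv_mem' := by
          rintro a ⟨m, hm⟩
          exact ⟨m, inv_mem hm⟩ }
    have hU : Subgroup.closure S ≤ U := by
      rw [Subgroup.closure_le]
      exact hKS
    have hall : ∀ g, ∃ N, g ∈ K N := by
      intro g
      have h2 : g ∈ Subgroup.closure S := by rw [hS]; exact Subgroup.mem_top g
      exact hU h2
    refine hUNION C hC.base G K hK hall ?_
    intro N
    have h1 : C (Mx d N ! N) := mem hC hX (Nat.factorial_pos N) hWR hLF hPOW hFREE hLIM hINJ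
      hTLA hFIN hBD hRES hCOV hAPP hLVC hENL hMX N
    let ψ : K N →* Mx d N ! N :=
      { toFun := fun g => ⟨f' g.1, g.2⟩
        map_one' := Subtype.ext (map_one f')
        map_mul' := fun a b => Subtype.ext (map_mul f' a.1 b.1) }
    refine hC.base.of_injective _ _ ψ ?_ h1
    intro a b hab
    exact Subtype.ext (hf' (congrArg Subtype.val hab))

end Pool.Agent.Y462.PA
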