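import Pool.Agent.Y462.PA.Red
import Pool.Agent.Y812.SS.Wr
import Pool.Agent.Y331.SS.Lim

/-!
# Polynomial activity: the groups of the chain are in `C`

Owner helper462.
-/

set_option autoImplicit false

open Classical

namespace Pool.Agent.Y462.PA

open Pool.Agent.Y462.SS
open Pool.Agent.Y110.FJ (ClosedE)

variable {X : Type} {C : ∀ (G : Type) [Group G], Prop} {d : X} {P : ℕ}

theorem al_add (h : T X) (m n : ℕ) :
    al (dray d) (al (dray d) h m) n = al (dray d) h (m + n) := by
  induction n with
  | zero => rfl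
  | succ n ih => rw [al, ih]; rfl

theorem Bd_sec {H : Subgroup (T X)} {b : T X} (hb : b ∈ Bd d P H) : sec b d ∈ Bd d P H := by
  have h1 : sec b d = al (dray d) b 1 := rfl
  obtain ⟨hb1, hb2, hb3⟩ := hb
  refine ⟨?_, ?_, ?_⟩
  · intro n
    rw [h1, al_add]
    exact hb1 _
  · rw [h1, al_add, Nat.add_comm, ← al_add, hb2]
  · intro n x hx
    rw [h1, al_add]
    exact hb3 _ x hx

theorem Fx_root {h : T X} (hh : Fx d h) : root h d = d := hh 0

/-- the recursion of a self-similar group -/
def recM (M : Subgroup (T X)) (hM : SelfSim M) : M →* Wr X M where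
  toFun k := ⟨fun x => ⟨sec k.1 x, hM k.1 k.2 x⟩, root k.1⟩
  map_one' := by
    apply Wr.ext
    · funext x
      exact Subtype.ext (sec_one x)
    · exact root_one
  map_mul' a b := by
    apply Wr.ext
    · funext x
      exact Subtype.ext (sec_mul a.1 b.1 x)
    · exact root_mul a.1 b.1

/-- the section along the ray -/
def recU (M : Subgroup (T X)) : Bd d P M →* Bd d P M where
  toFun b := ⟨sec b.1 d, Bd_sec b.2⟩
  map_one' := Subtype.ext (sec_one d)
  map_mul' a b := by
    apply Subtype.ext
    change sec (a.1 * b.1) d = sec a.1 d * sec b.1 d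
    rw [sec_mul, Fx_root b.2.1]

/-- the sections off the ray -/
noncomputable def recO (M : Subgroup (T X)) : Bd d P M →* Wr X M where
  toFun b := ⟨fun x => if hx : x = d then 1 else ⟨sec b.1 x, b.2.2.2 0 x hx⟩, root b.1⟩
  map_one' := by
    apply Wr.ext
    · funext x
      change (if hx : x = d then (1 : M) else _) = 1
      by_cases hx : x = d
      · rw [dif_pos hx]
      · rw [dif_neg hx]
        exact Subtype.ext (sec_one x)
    · exact root_one
  map_mul' a b := by
    apply Wr.ext
    · funext x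
      change (if hx : x = d then (1 : M) else _) =
        (if hx : root b.1 x = d then (1 : M) else _) * (if hx : x = d then (1 : M) else _)
      by_cases hx : x = d
      · have h1 : root b.1 x = d := by rw [hx]; exact Fx_root b.2.1
        rw [dif_pos hx, dif_pos h1, dif_pos hx, one_mul]
      · have h1 : root b.1 x ≠ d := fun h =>
          hx ((root b.1).injective (h.trans (Fx_root b.2.1).symm))
        rw [dif_neg hx, dif_neg h1, dif_neg hx]
        exact Subtype.ext (sec_mul a.1 b.1 x)
    · exact root_mul a.1 b.1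

theorem recO_s {M : Subgroup (T X)} (b : Bd d P M) (x : X) (hx : x ≠ d) :
    ((recO M b).s x : T X) = sec b.1 x := by
  change ((if hx : x = d then (1 : M) else _ : M) : T X) = _
  rw [dif_neg hx]

/-- the context of a self-similar group -/
noncomputable def ctx0 (C : ∀ (G : Type) [Group G], Prop) (d : X) (P : ℕ) (M : Subgroup (T X))
    (hM : SelfSim M) : Ctx C d P M where
  V := M
  U := Bd d P M
  gV := inferInstance
  gU := inferInstance
  FV := {⊤}
  FU := {⊤}
  tV := tl_top _
  tU := tl_top _
  iV := MonoidHom.id _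
  iU := MonoidHom.id _
  iV_inj := fun _ _ h => h
  iU_inj := fun _ _ h => h
  iV_le := ⟨⊤, rfl, le_top⟩
  iU_le := ⟨⊤, rfl, le_top⟩
  rV := recM M hM
  rU := recU M
  oU := recO M
  rV_inj := by
    intro A _ a _ h
    apply Subtype.ext
    refine T_ext ?_ ?_
    · exact (congrArg Wr.p h).trans root_one.symm
    · intro x
      exact (congrArg Subtype.val (congrFun (congrArg Wr.s h) x)).trans (sec_one x).symm
  rU_inj := by
    intro A _ a _ h h'
    apply Subtype.ext
    refine T_ext ?_ ?_
    · exact (congrArg Wr.p h').trans root_one.symm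
    · intro x
      by_cases hx : x = d
      · rw [hx]
        exact (congrArg Subtype.val h).trans (sec_one d).symm
      · have h1 := recO_s a x hx
        rw [h'] at h1
        exact h1.symm.trans (sec_one x).symm
  oU_p := fun u => Fx_root u.2.1
  oU_s := fun u => dif_pos rfl
  rV_s := fun h x hx => rfl
  rV_p := fun h => rfl
  rU_i := fun b hb => rfl
  oU_i := fun b x hx hxd => dif_neg hxd
  oU_ip := fun b => rfl

/-- the group `M0` is in `C` -/
theorem C_M0 (hC : Closed C) (hX : Finite X) (hLF : S_LF) (hPOW : S_POW)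
    (hFREE : S_FREE) (hLIM : S_LIM) (d : X) (P : ℕ) : C (M0 X P) := by
  have h1 : M0 X P ≤ M d 0 := by
    rw [M0, Subgroup.closure_le]
    rintro h ⟨ξ, -, -, h2⟩
    exact dir_mem_M d 0 h2
  exact hC.of_injective _ _ (Subgroup.inclusion h1) (Subgroup.inclusion_injective h1)
    (M_closed d 0 C hC hLF hPOW hFREE hLIM)

theorem finite_Bd_bot (hX : Finite X) (hP : 0 < P) (hBD : S_BD) :
    Finite (Bd d P (⊥ : Subgroup (T X))) := by
  obtain ⟨f, hf⟩ := hBD X d P hP ⊥
  have h1 : Finite (Wr X (⊥ : Subgroup (T X))) := by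
    refine Finite.of_injective (fun g => (g.s, g.p)) ?_
    intro g h hgh
    exact Wr.ext (congrArg Prod.fst hgh) (congrArg Prod.snd hgh)
  exact Finite.of_injective f hf

/-- the group `Bd d P M` is in `C` -/
theorem C_Bd (hC : Closed C) (hX : Finite X) (hP : 0 < P) (hBD : S_BD) (hWR : S_WR)
    (M : Subgroup (T X)) (hM : C M) : C (Bd d P M) := by
  obtain ⟨f, hf⟩ := hBD X d P hP M
  exact hC.of_injective _ _ f hf
    (Pool.Agent.Y812.SS.C_pow hC (Fin P) (Wr X M) (hWR C hC X M hX hM))

/-- **the groups of the chain are in `C`** -/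
theorem mem (hC : ClosedE C) (hX : Finite X) (hP : 0 < P) (hWR : S_WR) (hLF : S_LF)
    (hPOW : S_POW) (hFREE : S_FREE) (hLIM : S_LIM) (hINJ : S_AMINJ) (hTLA : S_TLA)
    (hFIN : S_FIN) (hBD : S_BD) (hRES : S_RES) (hCOV : S_COV)
    (hAPP : S_APP) (hLVC : S_LVC) (hENL : S_ENL) (hMX : S_MX) (s : ℕ) : C (Mx d P s) := by
  rcases Nat.eq_zero_or_pos s with rfl | hs
  · have : Finite (Mx d P 0) := inferInstanceAs (Finite (⊥ : Subgroup (T X)))
    exact finite_closed C hC.base hLF _
  obtain ⟨s, rfl⟩ : ∃ t, s = t + 1 := ⟨s - 1, by omega⟩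
  clear hs
  induction s with
  | zero => exact C_M0 hC.base hX hLF hPOW hFREE hLIM d P
  | succ s ih =>
    have hM : SelfSim (Mx d P (s + 1)) := (hMX X d P hP (s + 1)).1
    have hCB : C (Bd d P (Mx d P (s + 1))) := C_Bd hC.base hX hP hBD hWR _ ih
    -- the chain of amalgamated products
    have key : ∀ c (hc : c ≤ s), C (Cov d P (Mx d P (s + 1)) (Bd d P (Mx d P c))
        (bd_le_mx hMX hP (Nat.succ_le_succ hc)) (bd_le_bd hMX hP (hc.trans (Nat.le_succ s)))) := by
      intro c
      induction c with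
      | zero =>
        intro hc
        have hfin : Finite (Bd d P (Mx d P 0)) := finite_Bd_bot hX hP hBD
        refine hFIN C hC.base _ _ _ _ _ hfin ih hCB ?_
        obtain ⟨Q, _, f, hQ, hf⟩ := hRES X hX (Bd d P (Mx d P 0)) hfin
        refine ⟨Q, _, Am.lift _ _ (f.comp (Subgroup.subtype _)) (f.comp (Subgroup.subtype _))
          (fun c => rfl), hQ, ?_⟩
        intro a b hab
        simp only [Am.lift_inl] at hab
        have h1 : f (a.1 * b.1⁻¹) = 1 := by
          rw [map_mul, map_inv, mul_inv_eq_one]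
          exact hab
        have h2 := hf _ (mul_mem a.2 (inv_mem b.2)) h1
        exact Subtype.ext (mul_inv_eq_one.1 h2)
      | succ c ihc =>
        intro hc
        obtain ⟨n, rfl⟩ : ∃ n, s = n + 1 := ⟨s - 1, by omega⟩
        have hcn : c ≤ n := Nat.lt_succ_iff.1 hc
        have hD := ihc (Nat.le_of_succ_le hc)
        have r0 : Mx d P (n + 1) ≤ Mx d P (n + 2) := mx_mono hMX hP (Nat.le_succ _)
        let W : Ctx C d P (Mx d P (n + 1)) := (ctx0 C d P (Mx d P (n + 2)) hM).res _ r0
        have hL := red hC hX hP hINJ hTLA hAPP hLVC hENL hMX n W c hcn hD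
        have r1 : Mx d P (c + 1) ≤ Mx d P (n + 1) := mx_mono hMX hP (Nat.succ_le_succ hcn)
        have r3 : Mx d P (c + 1) ≤ Mx d P (n + 2) := r1.trans r0
        have r4 : Bd d P (Mx d P (c + 1)) ≤ Mx d P (n + 2) :=
          bd_le_mx hMX hP (Nat.succ_le_succ (Nat.succ_le_succ hcn))
        let Y : Ctx C d P (Mx d P (c + 1)) := W.res _ r1
        have si := s_inj Y (Subgroup.inclusion r3) (Subgroup.inclusion r4) hINJ
          (Subgroup.inclusion_injective r3) (Subgroup.inclusion_injective r4)
        refine of_TL hC.base (tl_cov hC hTLA _ _ _ _) (Am.lift _ _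
          (sA Y (Subgroup.inclusion r3) (Subgroup.inclusion r4))
          (sU Y (Subgroup.inclusion r3) (Subgroup.inclusion r4)) ?_) hL ?_
        · intro e
          exact s_glueU Y (Subgroup.inclusion r3) (Subgroup.inclusion r4) e
        · rintro _ (⟨_, rfl, rfl⟩ | ⟨_, rfl, rfl⟩)
          · rintro _ ⟨a, -, rfl⟩ h
            have h3 : a = 1 :=
              si.2.1 (((Am.lift_inl _ _ _ _ _ a).symm.trans h).trans (map_one _).symm)
            rw [h3, map_one]
          · rintro _ ⟨a, -, rfl⟩ h
            have h3 : a = 1 :=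
              si.2.2 (((Am.lift_inr _ _ _ _ _ a).symm.trans h).trans (map_one _).symm)
            rw [h3, map_one]
    have hcov := key s le_rfl
    obtain ⟨ψ, π, -, -, -, -, -, π1, π2, hdie⟩ := hCOV X d P hP (Mx d P (s + 1))
      (Bd d P (Mx d P s)) (bd_le_mx hMX hP (Nat.succ_le_succ le_rfl))
      (bd_le_bd hMX hP (Nat.le_succ s)) hM (mx_inter hMX hP s) (hMX X d P hP s).2.2.2.2.1
    have h1 : C (_ ⧸ π.ker) := by
      refine hLIM C hC.base X _ hX ψ hcov π.ker ?_
      intro γ
      rw [MonoidHom.mem_ker, hdie]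
    have h2 : C π.range := hC.base.of_injective _ _
      (QuotientGroup.quotientKerEquivRange π).symm.toMonoidHom
      (QuotientGroup.quotientKerEquivRange π).symm.injective h1
    have h3 : Mx d P (s + 1) ⊔ Bd d P (Mx d P (s + 1)) ≤ π.range := by
      rw [sup_le_iff]
      exact ⟨fun h hh => ⟨_, π1 ⟨h, hh⟩⟩, fun h hh => ⟨_, π2 ⟨h, hh⟩⟩⟩
    have h4 : C ↥(Mx d P (s + 1) ⊔ Bd d P (Mx d P (s + 1))) :=
      hC.base.of_injective _ _ (Subgroup.inclusion h3) (Subgroup.inclusion_injective h3) h2
    exact Lv_closed C hC.base hWR _ h4 1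

end Pool.Agent.Y462.PA
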