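import Pool.Agent.Y462.PA.Tool

/-!
# Polynomial activity: the reduction

Owner helper462.
-/

set_option autoImplicit false

open Classical

namespace Pool.Agent.Y462.PA

open Pool.Agent.Y462.SS
open Pool.Agent.Y110.FJ (ClosedE)

variable {X : Type} {C : ∀ (G : Type) [Group G], Prop} {d : X} {P : ℕ}

theorem mx_mono (hMX : S_MX) (hP : 0 < P) {s t : ℕ} (h : s ≤ t) : Mx d P s ≤ Mx d P t :=
  monotone_nat_of_le_succ (fun n => (hMX X d P hP n).2.2.1) h

theorem bd_le_mx (hMX : S_MX) (hP : 0 < P) {s t : ℕ} (h : s + 1 ≤ t) :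
    Bd d P (Mx d P s) ≤ Mx d P t :=
  (hMX X d P hP s).2.2.2.1.trans (mx_mono hMX hP h)

theorem bd_le_bd (hMX : S_MX) (hP : 0 < P) {s t : ℕ} (h : s ≤ t) :
    Bd d P (Mx d P s) ≤ Bd d P (Mx d P t) :=
  Bd_mono (mx_mono hMX hP h)

/-- hypotheses on the cover of `Mx (n+1) ⊔ Bd (Mx (n+1))` -/
theorem mx_inter (hMX : S_MX) (hP : 0 < P) (n : ℕ) :
    ∀ h ∈ Mx d P (n + 1), h ∈ Bd d P (Mx d P (n + 1)) → h ∈ Bd d P (Mx d P n) :=
  fun h hh hb => (hMX X d P hP n).2.2.2.2.2 h hh (Bd_mono le_top hb)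

theorem tl_cov (hC : ClosedE C) (hTLA : S_TLA) (M E : Subgroup (T X)) (h1 : E ≤ M)
    (h2 : E ≤ Bd d P M) : TL C (Cov d P M E h1 h2)
      (Subgroup.map (Am.inl (Subgroup.inclusion h1) (Subgroup.inclusion h2)) '' {⊤} ∪
        Subgroup.map (Am.inr (Subgroup.inclusion h1) (Subgroup.inclusion h2)) '' {⊤}) :=
  hTLA C hC E M (Bd d P M) (Subgroup.inclusion h1) (Subgroup.inclusion h2)
    (Subgroup.inclusion_injective h1) (Subgroup.inclusion_injective h2) {⊤} {⊤}
    (tl_top _) (tl_top _) ⟨⊤, rfl, le_top⟩ ⟨⊤, rfl, le_top⟩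

/-- criterion for `SS3` with the cover at the centre -/
theorem C_SS3_cov (hC : ClosedE C) (hINJ : S_AMINJ) (hTLA : S_TLA) {H : Subgroup (T X)}
    (W : Ctx C d P H) (M E : Subgroup (T X)) (h1 : E ≤ M) (h2 : E ≤ Bd d P M) (hHM : H ≤ M)
    {L : Type} [Group L] (hL : C L) (fV : W.V →* L) (fM : M →* L) (fB : Bd d P M →* L)
    (fU : W.U →* L) (hE : ∀ e : E, fM (Subgroup.inclusion h1 e) = fB (Subgroup.inclusion h2 e))
    (hH : ∀ c : H, fV (W.iV c) = fM (Subgroup.inclusion hHM c))
    (hBH : ∀ c : Bd d P H, fB (Subgroup.inclusion (Bd_mono hHM) c) = fU (W.iU c))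
    (hV : ∀ A ∈ W.FV, ∀ a ∈ A, fV a = 1 → a = 1) (hM : ∀ a, fM a = 1 → a = 1)
    (hB : ∀ a, fB a = 1 → a = 1) (hU : ∀ A ∈ W.FU, ∀ a ∈ A, fU a = 1 → a = 1) :
    C (SS3 W (Cov d P M E h1 h2) ((Am.inl _ _).comp (Subgroup.inclusion hHM))
      ((Am.inr _ _).comp (Subgroup.inclusion (Bd_mono hHM)))) := by
  have hi := hINJ E M (Bd d P M) (Subgroup.inclusion h1) (Subgroup.inclusion h2)
    (Subgroup.inclusion_injective h1) (Subgroup.inclusion_injective h2)
  refine C_SS3 W _ _ hC hINJ hTLA _ (tl_cov hC hTLA M E h1 h2) ?_ ?_ ?_ ?_ hL fV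
    (Am.lift _ _ fM fB hE) fU ?_ ?_ hV ?_ hU
  · exact hi.1.comp (Subgroup.inclusion_injective hHM)
  · exact hi.2.comp (Subgroup.inclusion_injective (Bd_mono hHM))
  · refine ⟨_, Or.inl ⟨⊤, rfl, rfl⟩, ?_⟩
    rintro _ ⟨c, rfl⟩
    exact ⟨_, trivial, rfl⟩
  · refine ⟨_, Or.inr ⟨⊤, rfl, rfl⟩, ?_⟩
    rintro _ ⟨c, rfl⟩
    exact ⟨_, trivial, rfl⟩
  · intro c
    change _ = Am.lift _ _ fM fB hE (Am.inl _ _ _)
    rw [Am.lift_inl, hH]
  · intro c
    change Am.lift _ _ fM fB hE (Am.inr _ _ _) = _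
    rw [Am.lift_inr, hBH]
  · rintro _ (⟨_, rfl, rfl⟩ | ⟨_, rfl, rfl⟩)
    · rintro _ ⟨a, -, rfl⟩ h
      rw [Am.lift_inl] at h
      rw [hM a h, map_one]
    · rintro _ ⟨a, -, rfl⟩ h
      rw [Am.lift_inr] at h
      rw [hB a h, map_one]

/-- the case in which the context is attached over the whole group -/
theorem red_top (hC : ClosedE C) (hINJ : S_AMINJ) (hTLA : S_TLA) (hMX : S_MX) (hP : 0 < P)
    (n : ℕ) (W : Ctx C d P (Mx d P (n + 1)))
    (hD : C (DD W (Bd d P (Mx d P n)) (bd_le_mx hMX hP le_rfl)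
        (bd_le_bd hMX hP (Nat.le_succ n)))) :
    C (SS3 (W.res (Mx d P (n + 1)) le_rfl)
      (Cov d P (Mx d P (n + 1)) (Bd d P (Mx d P n)) (bd_le_mx hMX hP le_rfl)
        (bd_le_bd hMX hP (Nat.le_succ n)))
      ((Am.inl _ _).comp (Subgroup.inclusion le_rfl))
      ((Am.inr _ _).comp (Subgroup.inclusion (Bd_mono le_rfl)))) := by
  have i1 : Function.Injective (W.iV.comp (Subgroup.inclusion
      (bd_le_mx (d := d) hMX hP (le_refl (n + 1))))) :=
    W.iV_inj.comp (Subgroup.inclusion_injective _)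
  have i2 : Function.Injective (W.iU.comp (Subgroup.inclusion
      (bd_le_bd (d := d) hMX hP (Nat.le_succ n)))) :=
    W.iU_inj.comp (Subgroup.inclusion_injective _)
  have gi := hINJ _ _ _ _ _ i1 i2
  refine C_SS3_cov hC hINJ hTLA (W.res (Mx d P (n + 1)) le_rfl) (Mx d P (n + 1))
    (Bd d P (Mx d P n)) (bd_le_mx hMX hP le_rfl) (bd_le_bd hMX hP (Nat.le_succ n)) le_rfl hD
    (Am.inl _ _) ((Am.inl _ _).comp W.iV) ((Am.inr _ _).comp W.iU) (Am.inr _ _) ?_ ?_ ?_ ?_ ?_ ?_ ?_
  · intro e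
    exact Am.glue (W.iV.comp (Subgroup.inclusion (bd_le_mx hMX hP le_rfl)))
      (W.iU.comp (Subgroup.inclusion (bd_le_bd hMX hP (Nat.le_succ n)))) e
  · intro c
    rfl
  · intro c
    rfl
  · intro A _ a _ h
    exact gi.1 (h.trans (map_one _).symm)
  · intro a h
    exact W.iV_inj ((gi.1 (h.trans (map_one _).symm)).trans (map_one _).symm)
  · intro a h
    exact W.iU_inj ((gi.2 (h.trans (map_one _).symm)).trans (map_one _).symm)
  · intro A _ a _ h
    exact gi.2 (h.trans (map_one _).symm)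

/-- from the cover to the next group of the chain -/
theorem red_step (hC : ClosedE C) (hX : Finite X) (hP : 0 < P) (hAPP : S_APP) (hLVC : S_LVC)
    (hMX : S_MX) (n : ℕ) (W : Ctx C d P (Mx d P (n + 1))) (b : ℕ) (hb : b ≤ n)
    (h : C (SS3 (W.res (Mx d P (b + 1)) (mx_mono hMX hP (Nat.succ_le_succ hb)))
      (Cov d P (Mx d P (n + 1)) (Bd d P (Mx d P n)) (bd_le_mx hMX hP le_rfl)
        (bd_le_bd hMX hP (Nat.le_succ n)))
      ((Am.inl _ _).comp (Subgroup.inclusion (mx_mono hMX hP (Nat.succ_le_succ hb))))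
      ((Am.inr _ _).comp (Subgroup.inclusion
        (Bd_mono (mx_mono hMX hP (Nat.succ_le_succ hb))))))) :
    C (SS3 (W.res (Mx d P (b + 1)) (mx_mono hMX hP (Nat.succ_le_succ hb))) (Mx d P (n + 2))
        (Subgroup.inclusion (mx_mono hMX hP (Nat.succ_le_succ (hb.trans (Nat.le_succ n)))))
        (Subgroup.inclusion (bd_le_mx hMX hP (Nat.succ_le_succ (Nat.succ_le_succ hb))))) := by
  have hA := hAPP C hC X hX d P hP (Mx d P (b + 1)) (Mx d P (n + 1)) (Bd d P (Mx d P n))
    (bd_le_mx hMX hP le_rfl) (bd_le_bd hMX hP (Nat.le_succ n)) (hMX X d P hP (b + 1)).1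
    (hMX X d P hP (n + 1)).1 (mx_inter hMX hP n) (hMX X d P hP n).2.2.2.2.1
    (mx_mono hMX hP (Nat.succ_le_succ hb)) _ h
  exact hLVC C hC X hX d P hP (Mx d P (b + 1)) (Mx d P (n + 1) ⊔ Bd d P (Mx d P (n + 1)))
    (hMX X d P hP (b + 1)).1 _ _ _ _ _ hA

/-- **the reduction** -/
theorem red (hC : ClosedE C) (hX : Finite X) (hP : 0 < P) (hINJ : S_AMINJ) (hTLA : S_TLA)
    (hAPP : S_APP) (hLVC : S_LVC) (hENL : S_ENL) (hMX : S_MX) (n : ℕ) :
    ∀ (W : Ctx C d P (Mx d P (n + 1))) (b : ℕ) (hb : b ≤ n),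
      C (DD W (Bd d P (Mx d P b)) (bd_le_mx hMX hP (Nat.succ_le_succ hb))
        (bd_le_bd hMX hP (hb.trans (Nat.le_succ n)))) →
      C (SS3 (W.res (Mx d P (b + 1)) (mx_mono hMX hP (Nat.succ_le_succ hb))) (Mx d P (n + 2))
        (Subgroup.inclusion (mx_mono hMX hP (Nat.succ_le_succ (hb.trans (Nat.le_succ n)))))
        (Subgroup.inclusion (bd_le_mx hMX hP (Nat.succ_le_succ (Nat.succ_le_succ hb))))) := by
  induction n with
  | zero =>
    intro W b hb hD
    obtain rfl : b = 0 := Nat.le_zero.1 hb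
    refine red_step hC hX hP hAPP hLVC hMX 0 W 0 le_rfl ?_
    exact red_top hC hINJ hTLA hMX hP 0 W hD
  | succ n ih =>
    intro W b hb hD
    refine red_step hC hX hP hAPP hLVC hMX (n + 1) W b hb ?_
    rcases Nat.eq_or_lt_of_le hb with rfl | hb'
    · exact red_top hC hINJ hTLA hMX hP (n + 1) W hD
    have hbn : b ≤ n := Nat.lt_succ_iff.1 hb'
    -- the group over which everything is glued
    have hW0 : Mx d P (b + 1) ≤ Mx d P (n + 2) := mx_mono hMX hP (Nat.succ_le_succ hb)
    obtain ⟨Z, jV, jU, e1, e2, uV, uU, mV, mU⟩ := hENL C hC X d P hP (Mx d P (b + 1))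
      (Mx d P (n + 2)) (hMX X d P hP _).1 (hMX X d P hP _).1 hW0
      (W.res (Mx d P (b + 1)) hW0)
    -- collapse
    have q1 : Bd d P (Mx d P b) ≤ Mx d P (n + 2) := bd_le_mx hMX hP (Nat.succ_le_succ hb)
    have q2 : Bd d P (Mx d P b) ≤ Bd d P (Mx d P (n + 2)) :=
      bd_le_bd hMX hP (hb.trans (Nat.le_succ (n + 1)))
    have i1 : Function.Injective (W.iV.comp (Subgroup.inclusion q1)) :=
      W.iV_inj.comp (Subgroup.inclusion_injective q1)
    have i2 : Function.Injective (W.iU.comp (Subgroup.inclusion q2)) :=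
      W.iU_inj.comp (Subgroup.inclusion_injective q2)
    have gi := hINJ _ _ _ _ _ i1 i2
    obtain ⟨cV, cV1, cV2⟩ := uV (DD W (Bd d P (Mx d P b)) q1 q2) ((Am.inl _ _).comp W.iV)
      (Am.inl _ _) (fun c => rfl)
    obtain ⟨cU, cU1, cU2⟩ := uU (DD W (Bd d P (Mx d P b)) q1 q2) ((Am.inr _ _).comp W.iU)
      (Am.inr _ _) (fun c => rfl)
    have hjV : ∀ v, jV v = 1 → v = 1 := by
      intro v hv
      have h1 : cV (jV v) = 1 := by rw [hv]; exact map_one cV
      exact gi.1 (((cV2 v).symm.trans h1).trans (map_one _).symm)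
    have hjU : ∀ v, jU v = 1 → v = 1 := by
      intro v hv
      have h1 : cU (jU v) = 1 := by rw [hv]; exact map_one cU
      exact gi.2 (((cU2 v).symm.trans h1).trans (map_one _).symm)
    -- the chain
    have key : ∀ c (hbc : b ≤ c) (hcn : c ≤ n),
        C (SS3 ((Z.res (Mx d P (n + 1)) (mx_mono hMX hP (Nat.le_succ _))).res (Mx d P (c + 1))
          (mx_mono hMX hP (Nat.succ_le_succ hcn))) (Mx d P (n + 2))
          (Subgroup.inclusion (mx_mono hMX hP (Nat.succ_le_succ (hcn.trans (Nat.le_succ n)))))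
          (Subgroup.inclusion (bd_le_mx hMX hP (Nat.succ_le_succ (Nat.succ_le_succ hcn))))) := by
      intro c hbc
      induction c, hbc using Nat.le_induction with
      | base =>
        intro hcn
        refine ih _ _ hcn ?_
        refine C_DD hC hTLA _ _ _ _ hD cV cU ?_ ?_ ?_
        · intro e
          have a1 : cV (Z.iV (Subgroup.inclusion q1 e)) = cU (Z.iU (Subgroup.inclusion q2 e)) := by
            rw [cV1, cU1]
            exact Am.glue (W.iV.comp (Subgroup.inclusion q1)) (W.iU.comp (Subgroup.inclusion q2)) e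
          exact a1
        · intro A hA a ha h
          rcases mV A hA with h1 | ⟨A', hA', h1⟩
          · obtain ⟨k, rfl⟩ := h1 ha
            have h2 : W.iV k = 1 := gi.1 (((cV1 k).symm.trans h).trans (map_one _).symm)
            have h3 : k = 1 := W.iV_inj (h2.trans (map_one _).symm)
            rw [h3]
            exact map_one _
          · obtain ⟨v, -, rfl⟩ := h1 ha
            have h2 : v = 1 := gi.1 (((cV2 v).symm.trans h).trans (map_one _).symm)
            rw [h2]
            exact map_one _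
        · intro A hA a ha h
          rcases mU A hA with h1 | ⟨A', hA', h1⟩
          · obtain ⟨k, rfl⟩ := h1 ha
            have h2 : W.iU k = 1 := gi.2 (((cU1 k).symm.trans h).trans (map_one _).symm)
            have h3 : k = 1 := W.iU_inj (h2.trans (map_one _).symm)
            rw [h3]
            exact map_one _
          · obtain ⟨v, -, rfl⟩ := h1 ha
            have h2 : v = 1 := gi.2 (((cU2 v).symm.trans h).trans (map_one _).symm)
            rw [h2]
            exact map_one _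
      | succ c hbc ihc =>
        intro hcn
        have hcn' : c ≤ n := Nat.le_of_succ_le hcn
        have hL := ihc hcn'
        refine ih _ _ hcn ?_
        -- the group of the previous step
        have r1 : Mx d P (c + 1) ≤ Mx d P (n + 1) := mx_mono hMX hP (Nat.succ_le_succ hcn')
        have r2 : Mx d P (n + 1) ≤ Mx d P (n + 2) := mx_mono hMX hP (Nat.le_succ _)
        have r3 : Mx d P (c + 1) ≤ Mx d P (n + 2) :=
          mx_mono hMX hP (Nat.succ_le_succ (hcn'.trans (Nat.le_succ n)))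
        have r4 : Bd d P (Mx d P (c + 1)) ≤ Mx d P (n + 2) :=
          bd_le_mx hMX hP (Nat.succ_le_succ (Nat.succ_le_succ hcn'))
        have r5 : Bd d P (Mx d P (c + 1)) ≤ Bd d P (Mx d P (n + 2)) :=
          bd_le_bd hMX hP (Nat.succ_le_succ (hcn'.trans (Nat.le_succ n)))
        let Y : Ctx C d P (Mx d P (c + 1)) := (Z.res (Mx d P (n + 1)) r2).res (Mx d P (c + 1)) r1
        have si := s_inj Y (Subgroup.inclusion r3) (Subgroup.inclusion r4) hINJ
          (Subgroup.inclusion_injective r3) (Subgroup.inclusion_injective r4)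
        have r6 : Mx d P (b + 1) ≤ Mx d P (c + 1) := mx_mono hMX hP (Nat.succ_le_succ hbc)
        obtain ⟨fV, fV1, fV2⟩ := uV (SS3 Y (Mx d P (n + 2)) (Subgroup.inclusion r3)
          (Subgroup.inclusion r4)) (sA Y (Subgroup.inclusion r3) (Subgroup.inclusion r4))
          ((sV Y (Subgroup.inclusion r3) (Subgroup.inclusion r4)).comp jV) (by
            intro x
            have a1 := s_glueV Y (Subgroup.inclusion r3) (Subgroup.inclusion r4)
              (Subgroup.inclusion r6 x)
            have a2 := e1 x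
            change sA Y (Subgroup.inclusion r3) (Subgroup.inclusion r4) _ =
              sV Y (Subgroup.inclusion r3) (Subgroup.inclusion r4) (jV _)
            rw [← a2]
            exact a1.symm)
        refine C_DD hC hTLA _ _ _ _ hL fV
          (sU Y (Subgroup.inclusion r3) (Subgroup.inclusion r4)) ?_ ?_ ?_
        · intro e
          have a1 : fV (Z.iV (Subgroup.inclusion r4 e)) =
              sU Y (Subgroup.inclusion r3) (Subgroup.inclusion r4)
                (Z.iU (Subgroup.inclusion r5 e)) := by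
            rw [fV1]
            exact s_glueU Y (Subgroup.inclusion r3) (Subgroup.inclusion r4) e
          exact a1
        · intro A hA a ha h
          rcases mV A hA with h1 | ⟨A', hA', h1⟩
          · obtain ⟨k, rfl⟩ := h1 ha
            have h3 : k = 1 := si.2.1 (((fV1 k).symm.trans h).trans (map_one _).symm)
            rw [h3]
            exact map_one _
          · obtain ⟨v, -, rfl⟩ := h1 ha
            exact si.1 (((fV2 v).symm.trans h).trans (map_one _).symm)
        · intro A hA a ha h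
          exact si.2.2 (h.trans (map_one _).symm)
    have hL := key n hbn le_rfl
    have r1 : Mx d P (n + 1) ≤ Mx d P (n + 1) := le_rfl
    have r2 : Mx d P (n + 1) ≤ Mx d P (n + 2) := mx_mono hMX hP (Nat.le_succ _)
    have r4 : Bd d P (Mx d P (n + 1)) ≤ Mx d P (n + 2) := bd_le_mx hMX hP le_rfl
    have r5 : Bd d P (Mx d P (n + 1)) ≤ Bd d P (Mx d P (n + 2)) := bd_le_bd hMX hP (Nat.le_succ _)
    have r6 : Mx d P (b + 1) ≤ Mx d P (n + 1) := mx_mono hMX hP (Nat.succ_le_succ hbn)
    let Y : Ctx C d P (Mx d P (n + 1)) := (Z.res (Mx d P (n + 1)) r2).res (Mx d P (n + 1)) r1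
    have si := s_inj Y (Subgroup.inclusion r2) (Subgroup.inclusion r4) hINJ
      (Subgroup.inclusion_injective r2) (Subgroup.inclusion_injective r4)
    refine C_SS3_cov hC hINJ hTLA (W.res (Mx d P (b + 1)) hW0) (Mx d P (n + 2))
      (Bd d P (Mx d P (n + 1))) r4 r5 hW0 hL
      ((sV Y (Subgroup.inclusion r2) (Subgroup.inclusion r4)).comp jV)
      (sA Y (Subgroup.inclusion r2) (Subgroup.inclusion r4))
      ((sU Y (Subgroup.inclusion r2) (Subgroup.inclusion r4)).comp Z.iU)
      ((sU Y (Subgroup.inclusion r2) (Subgroup.inclusion r4)).comp jU) ?_ ?_ ?_ ?_ ?_ ?_ ?_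
    · intro e
      exact s_glueU Y (Subgroup.inclusion r2) (Subgroup.inclusion r4) e
    · intro x
      have a1 := s_glueV Y (Subgroup.inclusion r2) (Subgroup.inclusion r4)
        (Subgroup.inclusion r6 x)
      have a2 := e1 x
      change sV Y (Subgroup.inclusion r2) (Subgroup.inclusion r4) (jV _) = _
      rw [← a2]
      exact a1
    · intro x
      exact congrArg (sU Y (Subgroup.inclusion r2) (Subgroup.inclusion r4)) (e2 x)
    · intro A hA a ha h
      exact hjV a (si.1 (h.trans (map_one _).symm))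
    · intro a h
      exact si.2.1 (h.trans (map_one _).symm)
    · intro a h
      exact Z.iU_inj ((si.2.2 (h.trans (map_one _).symm)).trans (map_one _).symm)
    · intro A hA a ha h
      exact hjU a (si.2.2 (h.trans (map_one _).symm))

end Pool.Agent.Y462.PA
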